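import Pool.Agent.L0h38.GI.Stm

/-!
# Project GI2: statements (vertex groups with finite centre instead of trivial centre)
-/

set_option autoImplicit false

namespace Pool.Agent.L0h38.GI

/-- finite centre -/
def FinC (X : Type) [Group X] : Prop := Finite (Subgroup.center X)

/-- the vertex groups of GI2 -/
def Ok2 (X : Type) [Group X] : Prop := (FA X ∧ FinC X ∧ Indec X) ∨ IsZ X

/-- weaker than `Ok2`: nontrivial, FA or infinite cyclic -/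
def Ok3 (X : Type) [Group X] : Prop := (FA X ∨ IsZ X) ∧ ∃ x : X, x ≠ 1

/-- KSN: Krull–Remak–Schmidt for finite products of indecomposable groups with finite centre. -/
def S_KSN : Prop := ∀ (ι κ : Type) [Finite ι] [Finite κ] (A : ι → Type) (B : κ → Type)
  [∀ i, Group (A i)] [∀ j, Group (B j)], (∀ i, FinC (A i)) → (∀ i, Indec (A i)) →
  (∀ j, FinC (B j)) → (∀ j, Indec (B j)) → Nonempty ((∀ i, A i) ≃* (∀ j, B j)) →
  ∃ σ : ι ≃ κ, ∀ i, Nonempty (A i ≃* B (σ i))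

/-- normal endomorphisms -/
def NormEnd {A : Type} [Group A] (f : A →* A) : Prop := ∀ g x : A, f (g * x * g⁻¹) = g * f x * g⁻¹

/-- FIT: Fitting's lemma for indecomposable groups with finite centre. -/
def S_FIT : Prop := ∀ (A : Type) [Group A], FinC A → Indec A → ∀ f : A →* A, NormEnd f →
  Function.Bijective f ∨ ∃ n : ℕ, ∀ x, (f^[n]) x = 1

/-- FSM: if a product of commuting normal endomorphisms is the identity, one of them is bijective. -/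
def S_FSM : Prop := ∀ (A : Type) [Group A], FinC A → Indec A → ∀ (n : ℕ) (f : Fin n → A →* A),
  (∀ j, NormEnd (f j)) → (∀ j k, j ≠ k → ∀ x y, Commute (f j x) (f k y)) →
  (∀ x, (List.ofFn fun j => f j x).prod = x) → ∃ j, Function.Bijective (f j)

/-- EXC: exchange. -/
def S_EXC : Prop := ∀ (A A' κ : Type) [Group A] [Group A'] [Finite κ] (B : κ → Type)
  [∀ j, Group (B j)], FinC A → Indec A → (∀ j, Indec (B j)) → Nonempty (A × A' ≃* (∀ j, B j)) →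
  ∃ j, Nonempty (A ≃* B j) ∧ Nonempty (A' ≃* (∀ k : {k // k ≠ j}, B k.1))

/-- CE2: centralisers. -/
def S_CE2 : Prop := ∀ (V : Type) (Γ : SimpleGraph V) (G : V → Type) [∀ v, Group (G v)] (v : V),
  ∀ x ∈ P Γ G (insert v (Γ.neighborSet v)), toPi x v ≠ 1 → ∀ y : GrP Γ G, Commute y x →
  y ∈ P Γ G (insert v (Γ.neighborSet v))

/-- MU: an isomorphism induces a bijection of the maximal FA cliques. -/
def S_MU : Prop := ∀ (V W : Type) [Finite V] [Finite W] (Γ : SimpleGraph V) (Δ : SimpleGraph W)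
  (G : V → Type) (H : W → Type) [∀ v, Group (G v)] [∀ w, Group (H w)], (∀ v, Ok3 (G v)) →
  (∀ w, Ok3 (H w)) → ∀ (e : GrP Γ G ≃* GrP Δ H),
  ∃ μ : {K // MaxF Γ G K} ≃ {K // MaxF Δ H K}, ∀ K, ∃ g, ∀ y,
    y ∈ P Γ G K.1 ↔ g⁻¹ * e y * g ∈ P Δ H (μ K).1

/-- MA2: an isomorphism maps maximal FA cliques to conjugates of maximal FA cliques. -/
def S_MA2 : Prop := ∀ (V W : Type) [Finite V] [Finite W] (Γ : SimpleGraph V) (Δ : SimpleGraph W)
  (G : V → Type) (H : W → Type) [∀ v, Group (G v)] [∀ w, Group (H w)], (∀ v, Ok3 (G v)) →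
  (∀ w, Ok3 (H w)) → ∀ (e : GrP Γ G ≃* GrP Δ H) (K : Set V), MaxF Γ G K →
  ∃ K', MaxF Δ H K' ∧ ∃ g, ∀ y, y ∈ P Γ G K ↔ g⁻¹ * e y * g ∈ P Δ H K'

/-- CNJ: intersections of conjugates of parabolic subgroups. -/
def S_CNJ : Prop := ∀ (V : Type) (Γ : SimpleGraph V) (G : V → Type) [∀ v, Group (G v)] (S T : Set V)
  (g : GrP Γ G), (∃ h : GrP Γ G, ∀ y, y ∈ P Γ G T → g⁻¹ * y * g ∈ P Γ G S →
    h⁻¹ * y * h ∈ P Γ G (S ∩ T)) ∧
  ((∀ y ∈ P Γ G S, g⁻¹ * y * g ∈ P Γ G S) → ∀ y, g⁻¹ * y * g ∈ P Γ G S → y ∈ P Γ G S)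

/-- INT: intersections of maximal FA cliques. -/
def S_INT : Prop := ∀ (V W : Type) [Finite V] [Finite W] (Γ : SimpleGraph V) (Δ : SimpleGraph W)
  (G : V → Type) (H : W → Type) [∀ v, Group (G v)] [∀ w, Group (H w)], (∀ v, Ok3 (G v)) →
  (∀ w, Ok3 (H w)) → ∀ (e : GrP Γ G ≃* GrP Δ H)
  (μ : {K // MaxF Γ G K} ≃ {K // MaxF Δ H K}), (∀ K, ∃ g, ∀ y,
    y ∈ P Γ G K.1 ↔ g⁻¹ * e y * g ∈ P Δ H (μ K).1) →
  ∀ R : Set {K // MaxF Γ G K}, R.Nonempty → ∃ g, ∀ y,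
    y ∈ P Γ G (⋂ K ∈ R, K.1) ↔ g⁻¹ * e y * g ∈ P Δ H (⋂ K ∈ R, (μ K).1)

/-- exponents of an element at the infinite cyclic vertices -/
noncomputable def xi {V : Type} {Γ : SimpleGraph V} {G : V → Type} [∀ v, Group (G v)]
    (c : ∀ i : VZ G, G i.1 ≃* Multiplicative ℤ) (y : GrP Γ G) : VZ G → ℤ :=
  fun i => (c i (toPi y i.1)).toAdd

/-- UX: the exponents of the elements of a centraliser. -/
def S_UX : Prop := ∀ (V : Type) [Finite V] (Γ : SimpleGraph V) (G : V → Type) [∀ v, Group (G v)]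
  (c : ∀ i : VZ G, G i.1 ≃* Multiplicative ℤ) (K : Set V), Γ.IsClique K →
  (∀ v ∈ K, FA (G v)) → ∀ x ∈ P Γ G K, ∀ z : VZ G → ℤ,
  (∃ y, Commute y x ∧ xi c y = z) ↔ ∀ i, z i ≠ 0 → ∀ v, toPi x v ≠ 1 → Γ.Adj v i.1

/-- the linear isomorphism -/
structure Lin {V W : Type} {Γ : SimpleGraph V} {Δ : SimpleGraph W} {G : V → Type} {H : W → Type}
    [∀ v, Group (G v)] [∀ w, Group (H w)] [Fintype (VZ G)] [Fintype (VZ H)] [DecidableEq (VZ G)]
    [DecidableEq (VZ H)] (e : GrP Γ G ≃* GrP Δ H) (c : ∀ i : VZ G, G i.1 ≃* Multiplicative ℤ)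
    (d : ∀ j : VZ H, H j.1 ≃* Multiplicative ℤ) : Type where
  T : Matrix (VZ H) (VZ G) ℤ
  T' : Matrix (VZ G) (VZ H) ℤ
  h1 : T * T' = 1
  h2 : T' * T = 1
  e1 : ∀ y, xi d (e y) = T.mulVec (xi c y)
  e2 : ∀ y, xi c (e.symm y) = T'.mulVec (xi d y)
  a1 : ∀ i k : VZ G, Γ.Adj i.1 k.1 → ∀ j l : VZ H, j ≠ l → ¬ Δ.Adj j.1 l.1 →
    T j i * T l k = T l i * T j k
  a2 : ∀ i k : VZ H, Δ.Adj i.1 k.1 → ∀ j l : VZ G, j ≠ l → ¬ Γ.Adj j.1 l.1 →
    T' j i * T' l k = T' l i * T' j k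

/-- LIN: it exists. -/
def S_LIN : Prop := ∀ (V W : Type) [Finite V] [Finite W] (Γ : SimpleGraph V) (Δ : SimpleGraph W)
  (G : V → Type) (H : W → Type) [∀ v, Group (G v)] [∀ w, Group (H w)] [Fintype (VZ G)]
  [Fintype (VZ H)] [DecidableEq (VZ G)] [DecidableEq (VZ H)], (∀ v, Ok3 (G v)) →
  (∀ w, Ok3 (H w)) → ∀ (e : GrP Γ G ≃* GrP Δ H)
  (c : ∀ i : VZ G, G i.1 ≃* Multiplicative ℤ) (d : ∀ j : VZ H, H j.1 ≃* Multiplicative ℤ),
  Nonempty (Lin e c d)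

/-- MOB: families with the same counts above every value have the same counts. -/
def S_MOB : Prop := ∀ (E ι κ : Type) [PartialOrder E] [Finite ι] [Finite κ] (a : ι → E) (b : κ → E),
  (∀ x, (∃ i, a i = x) ∨ (∃ j, b j = x) → Nat.card {i // x ≤ a i} = Nat.card {j // x ≤ b j}) →
  ∃ σ : ι ≃ κ, ∀ i, b (σ i) = a i

/-- SIG: the bijection of the FA vertices. -/
def S_SIG : Prop := ∀ (V W : Type) [Finite V] [Finite W] (Γ : SimpleGraph V) (Δ : SimpleGraph W)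
  (G : V → Type) (H : W → Type) [∀ v, Group (G v)] [∀ w, Group (H w)] [Fintype (VZ G)]
  [Fintype (VZ H)] [DecidableEq (VZ G)] [DecidableEq (VZ H)], (∀ v, Ok2 (G v)) →
  (∀ w, Ok2 (H w)) → ∀ (e : GrP Γ G ≃* GrP Δ H)
  (c : ∀ i : VZ G, G i.1 ≃* Multiplicative ℤ) (d : ∀ j : VZ H, H j.1 ≃* Multiplicative ℤ)
  (L : Lin e c d), ∃ σ : {v // FA (G v)} ≃ {w // FA (H w)},
    (∀ v, Nonempty (G v.1 ≃* H (σ v).1)) ∧
    (∀ v v', Γ.Adj v.1 v'.1 ↔ Δ.Adj (σ v).1 (σ v').1) ∧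
    ∀ v, ∀ z : VZ G → ℤ, (∀ i, z i ≠ 0 → Γ.Adj v.1 i.1) ↔
      (∀ j, L.T.mulVec z j ≠ 0 → Δ.Adj (σ v).1 j.1)

/-- UN2: the labelled graph is determined by the group. -/
def S_UN2 : Prop := ∀ (V W : Type) [Finite V] [Finite W] (Γ : SimpleGraph V) (Δ : SimpleGraph W)
  (G : V → Type) (H : W → Type) [∀ v, Group (G v)] [∀ w, Group (H w)], (∀ v, Ok2 (G v)) →
  (∀ w, Ok2 (H w)) → Nonempty (GrP Γ G ≃* GrP Δ H) →
  ∃ σ : Γ ≃g Δ, ∀ v, Nonempty (G v ≃* H (σ v))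

/-- FFA: finite groups have property FA. -/
def S_FFA : Prop := ∀ (X : Type) [Group X], Finite X → FA X

/-- SBS: every graph product of finite groups and finitely generated abelian groups is a graph
product of finite indecomposable groups and infinite cyclic groups. -/
def S_SBS : Prop := ∀ (n : ℕ) (Γ : SimpleGraph (Fin n)) (G : Fin n → Type) [∀ v, Group (G v)],
  (∀ v, Finite (G v) ∨ (Group.FG (G v) ∧ ∀ x y : G v, x * y = y * x)) →
  ∃ (m : ℕ) (Δ : SimpleGraph (Fin m)) (H : Fin m → Type) (_ : ∀ w, Group (H w)),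
    (∀ w, (Finite (H w) ∧ Indec (H w)) ∨ IsZ (H w)) ∧ Nonempty (GrP Γ G ≃* GrP Δ H)

end Pool.Agent.L0h38.GI
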