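import Pool.Agent.L0h38.GI.Defs
import Pool.Agent.Q32.DP.Stm

/-!
# Project GI: statements of the algorithmic modules
-/

set_option autoImplicit false

namespace Pool.Agent.L0h38.GI

open Pool.Agent.Q223.IS Pool.Agent.Q32.DP

/-- the graph with `n` vertices and the list of edges `E` -/
def gr (E : List (ℕ × ℕ)) (n : ℕ) : SimpleGraph (Fin n) where
  Adj i j := i ≠ j ∧ ((i.1, j.1) ∈ E ∨ (j.1, i.1) ∈ E)
  symm := ⟨fun _ _ h => ⟨h.1.symm, h.2.symm⟩⟩
  loopless := ⟨fun _ h => h.1 rfl⟩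

/-- The presentations of the graph products (over finite graphs) of groups in `C` and infinite
cyclic groups. -/
def GPC (C : Pres → Prop) (p : Pres) : Prop :=
  ∃ (n : ℕ) (Γ : SimpleGraph (Fin n)) (k : Fin n → Pres), (∀ i, C (k i) ∨ IsZ (PG (k i))) ∧
    Nonempty (PG p ≃* GrP Γ (fun i => PG (k i)))

/-- COD: a primitive recursive presentation of a graph product. -/
def S_COD : Prop := ∃ Pc : List Pres × List (ℕ × ℕ) → Pres, Primrec Pc ∧
  ∀ (L : List Pres) (E : List (ℕ × ℕ)),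
    Nonempty (PG (Pc (L, E)) ≃* GrP (gr E L.length) (fun i : Fin L.length => PG (L.get i)))

/-- BAD: non-isomorphism of the labelled graphs is recursively enumerable. -/
def S_BAD : Prop := ∀ (C : Pres → Prop) (f : Pres × Pres →. Bool), REPred C → Partrec f →
  (∀ k, C k → Cless (PG k) ∧ Indec (PG k)) →
  (∀ a b, C a → C b →
    (Nonempty (PG a ≃* PG b) → true ∈ f (a, b)) ∧ (¬ Nonempty (PG a ≃* PG b) → false ∈ f (a, b))) →
  ∃ Q : (List Pres × List (ℕ × ℕ)) × (List Pres × List (ℕ × ℕ)) → Prop, REPred Q ∧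
    ∀ L E L' E', (∀ k ∈ L, C k ∨ IsZ (PG k)) → (∀ k ∈ L', C k ∨ IsZ (PG k)) →
    (Q ((L, E), (L', E')) ↔ ¬ ∃ σ : gr E L.length ≃g gr E' L'.length,
      ∀ i, Nonempty (PG (L.get i) ≃* PG (L'.get (σ i))))

/-- ALG: the algorithm. -/
def S_ALGG : Prop := ∀ C : Pres → Prop, REPred C →
  (∀ k, C k → FA (PG k) ∧ Cless (PG k) ∧ Indec (PG k)) → Solvable C → Solvable (GPC C)

end Pool.Agent.L0h38.GI
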