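import Pool.Agent.L0h38.GI.All
import Pool.Agent.L0h6.GI.MRG
import Pool.Agent.L0h6.GI.PRD
import Pool.Agent.L0h6.GI.RED
import Pool.Agent.L0h61.GI.REN

/-!
# Module ALG3 of project GI3: the algorithm
-/

set_option autoImplicit false

namespace Pool.Agent.L0h38.GI.ALG3

open Pool.Agent.L0h38.GI Pool.Agent.Q223.IS Pool.Agent.Q32.DP Pool.Agent.L0h57.GI
  Pool.Agent.L0h68.GI

theorem not_Z (hZ : S_FAZ) {X : Type} [Group X] (h : FA X) : ¬ IsZ X := by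
  rintro ⟨f⟩
  have h1 := hZ X h f.toMonoidHom (f.symm (Multiplicative.ofAdd 1))
  have h2 : f (f.symm (Multiplicative.ofAdd 1)) = Multiplicative.ofAdd 0 := h1
  have h3 : Multiplicative.ofAdd (1 : ℤ) = Multiplicative.ofAdd 0 :=
    (f.apply_symm_apply _).symm.trans h2
  exact absurd (Multiplicative.ofAdd.injective h3) (by norm_num)

theorem ok3_Z {X : Type} [Group X] (h : IsZ X) : Ok3 X := by
  refine ⟨Or.inr h, ?_⟩
  obtain ⟨f⟩ := h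
  refine ⟨f.symm (Multiplicative.ofAdd 1), fun e => ?_⟩
  have h1 : Multiplicative.ofAdd (1 : ℤ) = Multiplicative.ofAdd 0 :=
    ((MulEquiv.symm_apply_eq f).1 e).trans f.map_one
  exact absurd (Multiplicative.ofAdd.injective h1) (by norm_num)

/-- a direct product is a graph product over a complete graph -/
theorem top_iso (hC : S_CLQ) {n : ℕ} (G : Fin n → Type) [∀ v, Group (G v)] :
    Nonempty ((∀ v, G v) ≃* GrP (⊤ : SimpleGraph (Fin n)) G) := by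
  have hK : (⊤ : SimpleGraph (Fin n)).IsClique (Set.univ : Set (Fin n)) := by
    intro a _ b _ hab
    exact hab
  obtain ⟨f⟩ := clq_equiv (G := G) hC hK (Set.toFinite _)
  have e1 : (P (⊤ : SimpleGraph (Fin n)) G Set.univ) ≃* GrP (⊤ : SimpleGraph (Fin n)) G :=
    (MulEquiv.subgroupCongr P_top).trans Subgroup.topEquiv
  let e2 : (∀ v, G v) ≃* (∀ v : (Set.univ : Set (Fin n)), G v) :=
    { toFun := fun z v => z v.1
      invFun := fun z v => z ⟨v, Set.mem_univ v⟩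
      left_inv := fun z => rfl
      right_inv := fun z => rfl
      map_mul' := fun z z' => rfl }
  exact ⟨(e2.trans f).trans e1⟩

theorem prods_gpc (hC : S_CLQ) (hP : S_PRD) {C : Pres → Prop}
    (hCp : ∀ k, C k → FA (PG k) ∧ ∃ x : PG k, x ≠ 1) {p : Pres} (h : Prods C C p) : GPC C p := by
  obtain ⟨n, k, hk, ⟨u⟩⟩ := (hP C hCp).2.2 p h
  obtain ⟨v⟩ := top_iso hC (fun i => PG (k i))
  exact ⟨n, ⊤, k, fun i => Or.inl (hk i), ⟨u.trans v⟩⟩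

/-- ALG3 -/
theorem t_ALG3 (h1 : S_UN3) (h2 : S_COD) (h3 : S_BA2) (h4 : S_REN) (h5 : S_RED) (h6 : S_PRD)
    (hCL : S_CLQ) (hZ : S_FAZ) : S_ALG3 := by
  intro C hC hCp
  constructor
  · rintro ⟨f, hf, hf2⟩
    exact ⟨f, hf, fun a b ha hb => hf2 a b (prods_gpc hCL h6 hCp ha) (prods_gpc hCL h6 hCp hb)⟩
  rintro ⟨f, hf, hf2⟩
  obtain ⟨Pc, hPc, hPc2⟩ := h2
  obtain ⟨hre1, hre2⟩ := h4 C hC
  have hprod := (h6 C hCp).1
  obtain ⟨Q, hQ, hQ2⟩ := h3 (Prods C C) f hre1 hf (fun k hk => not_Z hZ (hprod k hk).1) hf2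
  have hOk : ∀ k : Pres, (Prods C C k ∨ IsZ (PG k)) → Ok3 (PG k) := by
    rintro k (hk | hk)
    · exact ⟨Or.inl (hprod k hk).1, (hprod k hk).2⟩
    · exact ok3_Z hk
  let Q' : LG × LG → Prop := fun x => (NT C x.1 ∧ NT C x.2) ∧ Q x
  have hQ' : REPred Q' := by
    refine Pool.Agent.Helper926.RE.and (Pool.Agent.Helper926.RE.and ?_ ?_) hQ
    · exact Pool.Agent.Helper926.RE.comp (p := NT C) hre2 Computable.fst
    · exact Pool.Agent.Helper926.RE.comp (p := NT C) hre2 Computable.snd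
  refine SEARCH.solvable_of (re_NG (D := fun k => Prods C C k ∨ IsZ (PG k)) (re_D hre1) hPc hQ')
    ?_ ?_
  · rintro p q ⟨⟨⟨L, E⟩, ⟨L', E'⟩⟩, ⟨hL, hL'⟩, ⟨⟨⟨u⟩⟩, ⟨⟨u'⟩⟩⟩, ⟨⟨hn, hn'⟩, hq⟩⟩ ⟨v⟩
    obtain ⟨w⟩ := hPc2 L E
    obtain ⟨w'⟩ := hPc2 L' E'
    have hiso : Nonempty (GrP (gr E L.length) (fun i : Fin L.length => PG (L.get i)) ≃*
        GrP (gr E' L'.length) (fun i : Fin L'.length => PG (L'.get i))) :=
      ⟨w.symm.trans (u.symm.trans (v.trans (u'.trans w')))⟩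
    exact (hQ2 L E L' E' hL hL').1 hq
      (h1 (Fin L.length) (Fin L'.length) (gr E L.length) (gr E' L'.length)
        (fun i => PG (L.get i)) (fun i => PG (L'.get i))
        (fun i => hOk _ (hL _ (List.get_mem _ _))) (fun i => hOk _ (hL' _ (List.get_mem _ _)))
        hn.2 hn'.2 hiso)
  · rintro p q hp hq hno
    obtain ⟨⟨L, E⟩, hL, ⟨u⟩⟩ := h5 C hCp p hp
    obtain ⟨⟨L', E'⟩, hL', ⟨u'⟩⟩ := h5 C hCp q hq
    obtain ⟨w⟩ := hPc2 L E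
    obtain ⟨w'⟩ := hPc2 L' E'
    refine ⟨((L, E), (L', E')), ⟨hL.1, hL'.1⟩, ⟨⟨⟨u.trans w.symm⟩⟩, ⟨⟨u'.trans w'.symm⟩⟩⟩,
      ⟨⟨hL, hL'⟩, ?_⟩⟩
    refine (hQ2 L E L' E' hL.1 hL'.1).2 ?_
    rintro ⟨σ, hσ⟩
    obtain ⟨v⟩ := gp_congr (G := fun i => PG (L.get i)) (H := fun i => PG (L'.get i)) σ hσ
    exact hno ⟨u.trans (v.trans u'.symm)⟩

end Pool.Agent.L0h38.GI.ALG3
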