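import Pool.Agent.L0h38.GI.Stm3

/-!
# Project GI2: FIT (Fitting's lemma for indecomposable groups with finite centre), FSM
-/

set_option autoImplicit false

namespace Pool.Agent.L0h38.GI.FIT

section

variable {A : Type} [Group A] {f : A →* A} (hf : NormEnd f)

include hf

theorem n1 (g x : A) : Commute (g⁻¹ * f g) (f x) := by
  have h1 : g * f x * g⁻¹ = f g * f x * (f g)⁻¹ := by
    rw [← hf g x, map_mul, map_mul, map_inv]
  show g⁻¹ * f g * f x = f x * (g⁻¹ * f g)
  have h2 : f g * f x = g * f x * g⁻¹ * f g := by rw [h1]; group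
  calc g⁻¹ * f g * f x = g⁻¹ * (f g * f x) := mul_assoc _ _ _
    _ = g⁻¹ * (g * f x * g⁻¹ * f g) := by rw [h2]
    _ = f x * (g⁻¹ * f g) := by group

theorem n2 {z : A} (hz : ∃ y, z = f y) (hc : ∀ x, Commute z (f x)) : z ∈ Subgroup.center A := by
  obtain ⟨y, rfl⟩ := hz
  rw [Subgroup.mem_center_iff]
  intro g
  have h1 : g * f y * g⁻¹ = f g * f y * (f g)⁻¹ := by
    rw [← hf g y, map_mul, map_mul, map_inv]
  have h2 : f g * f y * (f g)⁻¹ = f y := by
    rw [← (hc g).eq]; group
  rw [h2] at h1
  calc g * f y = g * f y * g⁻¹ * g := by group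
    _ = f y * g := by rw [h1]

theorem n3 (g : A) : (f g)⁻¹ * f (f g) ∈ Subgroup.center A := by
  refine n2 hf ⟨g⁻¹ * f g, by rw [map_mul, map_inv]⟩ (fun x => n1 hf (f g) x)

theorem n4 {z : A} (hz : z ∈ Subgroup.center A) : f z ∈ Subgroup.center A := by
  rw [Subgroup.mem_center_iff] at hz ⊢
  intro g
  have h1 : g * z * g⁻¹ = z := by rw [hz g]; group
  have h2 := hf g z
  rw [h1] at h2
  calc g * f z = g * f z * g⁻¹ * g := by group
    _ = f z * g := by rw [← h2]

omit hf in
/-- iterates -/
def it (f : A →* A) : ℕ → (A →* A)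
  | 0 => MonoidHom.id A
  | n + 1 => f.comp (it f n)

end

section

variable {A : Type} [Group A] (f : A →* A)

theorem it_succ (n : ℕ) (x : A) : it f (n + 1) x = f (it f n x) := rfl

theorem it_succ' (n : ℕ) (x : A) : it f (n + 1) x = it f n (f x) := by
  induction n with
  | zero => rfl
  | succ n ih => rw [it_succ, ih, it_succ]

theorem it_apply (n : ℕ) (x : A) : it f n x = f^[n] x := by
  induction n with
  | zero => rfl
  | succ n ih => rw [it_succ, ih, Function.iterate_succ_apply']

theorem norm_it {f : A →* A} (hf : NormEnd f) (n : ℕ) : NormEnd (it f n) := by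
  induction n with
  | zero => intro g x; rfl
  | succ n ih =>
    intro g x
    rw [it_succ, it_succ, ih, hf]

theorem norm_range {F : A →* A} (hF : NormEnd F) : F.range.Normal :=
  ⟨by
    rintro _ ⟨y, rfl⟩ g
    exact ⟨g * y * g⁻¹, hF g y⟩⟩

/-- the exponent -/
theorem exists_n (hZ : FinC A) : ∃ n, 1 ≤ n ∧
    (it f (n + 1)).range ⊓ Subgroup.center A = (it f n).range ⊓ Subgroup.center A := by
  have hZ' : Finite (Subgroup.center A) := hZ
  have hfin : ∀ k, Finite ((it f k).range ⊓ Subgroup.center A : Subgroup A) := fun k =>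
    Finite.of_injective (Subgroup.inclusion (inf_le_right :
      (it f k).range ⊓ Subgroup.center A ≤ Subgroup.center A)) (Subgroup.inclusion_injective _)
  have hle : ∀ k, (it f (k + 1)).range ⊓ Subgroup.center A ≤ (it f k).range ⊓ Subgroup.center A := by
    intro k
    refine inf_le_inf_right _ ?_
    rintro _ ⟨y, rfl⟩
    exact ⟨f y, (it_succ' f k y).symm⟩
  by_contra hall
  push Not at hall
  have hlt : ∀ k, 1 ≤ k → Nat.card ((it f (k + 1)).range ⊓ Subgroup.center A : Subgroup A) <
      Nat.card ((it f k).range ⊓ Subgroup.center A : Subgroup A) := by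
    intro k hk
    have := hfin k
    refine lt_of_le_of_ne (Nat.card_le_card_of_injective _
      (Subgroup.inclusion_injective (hle k))) ?_
    intro heq
    apply hall k hk
    exact Subgroup.eq_of_le_of_card_ge (hle k) heq.ge
  have hb : ∀ k, Nat.card ((it f (k + 1)).range ⊓ Subgroup.center A : Subgroup A) + k ≤
      Nat.card ((it f 1).range ⊓ Subgroup.center A : Subgroup A) := by
    intro k
    induction k with
    | zero => exact le_rfl
    | succ k ih =>
      have := hlt (k + 1) (by omega)
      omega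
  have := hb (Nat.card ((it f 1).range ⊓ Subgroup.center A : Subgroup A) + 1)
  omega

/-- FIT -/
theorem t_FIT : S_FIT := by
  intro A _ hZ hI f hf
  obtain ⟨n, hn, hR⟩ := exists_n f hZ
  have hZ' : Finite (Subgroup.center A) := hZ
  -- elements of the range
  have hmod : ∀ x ∈ (it f n).range, x⁻¹ * f x ∈ Subgroup.center A := by
    rintro _ ⟨a, rfl⟩
    obtain ⟨m, rfl⟩ : ∃ m, n = m + 1 := ⟨n - 1, by omega⟩
    rw [it_succ]
    exact n3 hf _
  have hsub : ∀ x ∈ (it f n).range, x ∈ (it f (n + 1)).range := by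
    intro x hx
    have h1 := hmod x hx
    have hfx : f x ∈ (it f (n + 1)).range := by
      obtain ⟨a, rfl⟩ := hx
      exact ⟨a, rfl⟩
    have hfx' : f x ∈ (it f n).range := by
      obtain ⟨a, ha⟩ := hfx
      exact ⟨f a, by rw [← it_succ', ha]⟩
    have h2 : (f x)⁻¹ * x ∈ (it f n).range ⊓ Subgroup.center A := by
      refine Subgroup.mem_inf.2 ⟨mul_mem (inv_mem hfx') hx, ?_⟩
      have := inv_mem h1
      have e : (x⁻¹ * f x)⁻¹ = (f x)⁻¹ * x := by group
      rwa [e] at this
    rw [← hR] at h2
    have h3 := mul_mem hfx (Subgroup.mem_inf.1 h2).1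
    have e : f x * ((f x)⁻¹ * x) = x := by group
    rwa [e] at h3
  have hsurj : ∀ x ∈ (it f n).range, ∃ y ∈ (it f n).range, f y = x := by
    intro x hx
    obtain ⟨a, ha⟩ := hsub x hx
    exact ⟨it f n a, ⟨a, rfl⟩, ha⟩
  have hmaps : ∀ x ∈ (it f n).range, f x ∈ (it f n).range := by
    rintro _ ⟨a, rfl⟩
    exact ⟨f a, by rw [← it_succ']; rfl⟩
  -- injectivity
  have hfin : Finite ((it f n).range ⊓ Subgroup.center A : Subgroup A) :=
    Finite.of_injective (Subgroup.inclusion (inf_le_right :
      (it f n).range ⊓ Subgroup.center A ≤ Subgroup.center A)) (Subgroup.inclusion_injective _)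
  let φ : ((it f n).range ⊓ Subgroup.center A : Subgroup A) →
      ((it f n).range ⊓ Subgroup.center A : Subgroup A) :=
    fun x => ⟨f x.1, hmaps _ x.2.1, n4 hf x.2.2⟩
  have hφs : Function.Surjective φ := by
    rintro ⟨r, hr⟩
    obtain ⟨hr1, hr2⟩ := Subgroup.mem_inf.1 hr
    obtain ⟨s, hs, hsr⟩ := hsurj r hr1
    have h1 := hmod s hs
    rw [hsr] at h1
    have h2 : s ∈ Subgroup.center A := by
      have := mul_mem hr2 (inv_mem h1)
      have e : r * (s⁻¹ * r)⁻¹ = s := by group
      rwa [e] at this
    exact ⟨⟨s, hs, h2⟩, Subtype.ext hsr⟩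
  have hφi : Function.Injective φ := Finite.injective_iff_surjective.2 hφs
  have hker : ∀ x ∈ (it f n).range, f x = 1 → x = 1 := by
    intro x hx h1
    have h2 := hmod x hx
    rw [h1, mul_one] at h2
    have h3 : x ∈ Subgroup.center A := by
      have := inv_mem h2
      rwa [inv_inv] at this
    have h4 : φ ⟨x, hx, h3⟩ = φ 1 := by
      apply Subtype.ext
      show f x = f 1
      rw [h1, map_one]
    exact congrArg Subtype.val (hφi h4)
  have hker' : ∀ k, ∀ x ∈ (it f n).range, it f k x = 1 → x = 1 := by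
    intro k
    induction k with
    | zero => intro x _ h; exact h
    | succ k ih =>
      intro x hx h
      rw [it_succ'] at h
      exact hker x hx (ih _ (hmaps x hx) h)
  have hsurj' : ∀ k, ∀ x ∈ (it f n).range, ∃ y ∈ (it f n).range, it f k y = x := by
    intro k
    induction k with
    | zero => intro x hx; exact ⟨x, hx, rfl⟩
    | succ k ih =>
      intro x hx
      obtain ⟨y, hy, hyx⟩ := hsurj x hx
      obtain ⟨z, hz, hzy⟩ := ih y hy
      exact ⟨z, hz, by rw [it_succ, hzy, hyx]⟩
  -- the decomposition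
  have hIn : (it f n).range.Normal := norm_range (norm_it hf n)
  have hNn : (it f n).ker.Normal := inferInstance
  have hdis : Disjoint (it f n).ker (it f n).range := by
    rw [Subgroup.disjoint_def]
    intro x hx1 hx2
    exact hker' n x hx2 hx1
  have hcomm : ∀ (a : (it f n).ker) (b : (it f n).range), Commute (a : A) (b : A) := fun a b =>
    Subgroup.commute_of_normal_of_disjoint _ _ hNn hIn hdis _ _ a.2 b.2
  let Φ : (it f n).ker × (it f n).range →* A :=
    MonoidHom.noncommCoprod (it f n).ker.subtype (it f n).range.subtype hcomm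
  have hΦ : ∀ a b, Φ (a, b) = a.1 * b.1 := fun a b => rfl
  have hΦb : Function.Bijective Φ := by
    constructor
    · rw [injective_iff_map_eq_one]
      rintro ⟨a, b⟩ h
      rw [hΦ] at h
      have h1 : a.1 = b.1⁻¹ := eq_inv_of_mul_eq_one_left h
      have h2 : b.1 = 1 := by
        apply hker' n _ b.2
        have := a.2
        rw [MonoidHom.mem_ker, h1, map_inv, inv_eq_one] at this
        exact this
      rw [h2, inv_one] at h1
      exact Prod.ext (Subtype.ext h1) (Subtype.ext h2)
    · intro a
      obtain ⟨b, hb, hba⟩ := hsurj' n (it f n a) ⟨a, rfl⟩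
      refine ⟨(⟨a * b⁻¹, ?_⟩, ⟨b, hb⟩), ?_⟩
      · rw [MonoidHom.mem_ker, map_mul, map_inv, hba, mul_inv_cancel]
      · rw [hΦ]; group
  rcases hI.2 _ _ ⟨(MulEquiv.ofBijective Φ hΦb).symm⟩ with h | h
  · left
    have hinjF : Function.Injective (it f n) := by
      rw [injective_iff_map_eq_one]
      intro a ha
      exact congrArg Subtype.val (h ⟨a, ha⟩)
    obtain ⟨m, rfl⟩ : ∃ m, n = m + 1 := ⟨n - 1, by omega⟩
    constructor
    · intro x y hxy
      apply hinjF
      rw [it_succ', it_succ', hxy]
    · intro a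
      obtain ⟨⟨u, b⟩, hub⟩ := hΦb.2 a
      rw [hΦ, h u] at hub
      obtain ⟨c, hc⟩ := b.2
      refine ⟨it f m c, ?_⟩
      rw [← it_succ, hc, ← hub]
      simp
  · right
    refine ⟨n, fun x => ?_⟩
    rw [← it_apply]
    exact congrArg Subtype.val (h ⟨it f n x, x, rfl⟩)

/-- the product of two homomorphisms with commuting images -/
def mulH {A : Type} [Group A] (a b : A →* A) (h : ∀ x y, Commute (a x) (b y)) : A →* A where
  toFun x := a x * b x
  map_one' := by rw [map_one, map_one, mul_one]
  map_mul' x y := by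
    rw [map_mul, map_mul, mul_assoc, mul_assoc, ← mul_assoc (a y), (h y x).eq, mul_assoc]

theorem two (hFIT : S_FIT) {A : Type} [Group A] (hZ : FinC A) (hI : Indec A) (a b : A →* A)
    (ha : NormEnd a) (hb : NormEnd b) (h : ∀ x y, Commute (a x) (b y))
    (hc : Function.Bijective (mulH a b h)) : Function.Bijective a ∨ Function.Bijective b := by
  set c := mulH a b h with hcdef
  have hcx : ∀ x, c x = a x * b x := fun x => rfl
  have hcn : NormEnd c := by
    intro g x
    rw [hcx, hcx, ha, hb]; group
  let ci : A →* A := (MulEquiv.ofBijective c hc).symm.toMonoidHom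
  have hci1 : ∀ x, c (ci x) = x := fun x => (MulEquiv.ofBijective c hc).apply_symm_apply x
  have hci2 : ∀ x, ci (c x) = x := fun x => (MulEquiv.ofBijective c hc).symm_apply_apply x
  have hcin : NormEnd ci := by
    intro g x
    apply hc.1
    rw [hci1, hcn, hci1]
  have hn1 : NormEnd (ci.comp a) := by
    intro g x
    show ci (a (g * x * g⁻¹)) = g * ci (a x) * g⁻¹
    rw [ha, hcin]
  have hn2 : NormEnd (ci.comp b) := by
    intro g x
    show ci (b (g * x * g⁻¹)) = g * ci (b x) * g⁻¹
    rw [hb, hcin]
  have hsum : ∀ x, ci (a x) * ci (b x) = x := by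
    intro x
    rw [← map_mul, ← hcx, hci2]
  have hcib : Function.Bijective ci := (MulEquiv.ofBijective c hc).symm.bijective
  rcases hFIT A hZ hI _ hn1 with h1 | ⟨n, h1⟩
  · left
    have h2 : Function.Bijective (c ∘ (ci.comp a)) := hc.comp h1
    have h3 : c ∘ (ci.comp a) = a := by
      funext x; exact hci1 _
    rwa [h3] at h2
  · have hinj : Function.Injective (ci.comp b) := by
      rw [injective_iff_map_eq_one]
      intro x hx
      have h2 : ci (a x) = x := by
        have := hsum x
        have hx' : ci (b x) = 1 := hx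
        rwa [hx', mul_one] at this
      have h3 : ∀ k, (ci.comp a)^[k] x = x := by
        intro k
        induction k with
        | zero => rfl
        | succ k ih => rw [Function.iterate_succ_apply', ih]; exact h2
      rw [← h3 n, h1]
    rcases hFIT A hZ hI _ hn2 with h4 | ⟨m, h4⟩
    · right
      have h2 : Function.Bijective (c ∘ (ci.comp b)) := hc.comp h4
      have h3 : c ∘ (ci.comp b) = b := by
        funext x; exact hci1 _
      rwa [h3] at h2
    · exfalso
      obtain ⟨g, hg⟩ := hI.1
      apply hg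
      have h5 := hinj.iterate m
      apply h5
      rw [h4, h4]

/-- FSM -/
theorem t_FSM (hFIT : S_FIT) : S_FSM := by
  intro A _ hZ hI
  have key : ∀ (n : ℕ) (f : Fin n → A →* A), (∀ j, NormEnd (f j)) →
      (∀ j k, j ≠ k → ∀ x y, Commute (f j x) (f k y)) →
      ∃ h : A →* A, NormEnd h ∧ (∀ x, h x = (List.ofFn fun j => f j x).prod) ∧
        (∀ g : A →* A, (∀ j x y, Commute (g x) (f j y)) → ∀ x y, Commute (g x) (h y)) ∧
        (Function.Bijective h → ∃ j, Function.Bijective (f j)) := by
    intro n
    induction n with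
    | zero =>
      intro f _ _
      refine ⟨1, ?_, ?_, ?_, ?_⟩
      · intro g x; simp
      · intro x; simp
      · intro g _ x y; exact Commute.one_right _
      · intro hb
        exfalso
        obtain ⟨g, hg⟩ := hI.1
        exact hg (hb.1 rfl)
    | succ n ih =>
      intro f hn hc
      obtain ⟨h, h1, h2, h3, h4⟩ := ih (fun j => f j.succ) (fun j => hn _)
        (fun j k hjk => hc _ _ (fun e => hjk (Fin.succ_injective _ e)))
      have hcm : ∀ x y, Commute (f 0 x) (h y) :=
        h3 (f 0) (fun j => hc 0 j.succ (Fin.succ_ne_zero j).symm)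
      refine ⟨mulH (f 0) h hcm, ?_, ?_, ?_, ?_⟩
      · intro g x
        show f 0 (g * x * g⁻¹) * h (g * x * g⁻¹) = g * (f 0 x * h x) * g⁻¹
        rw [hn 0, h1]; group
      · intro x
        rw [List.ofFn_succ, List.prod_cons, ← h2]; rfl
      · intro g hg x y
        exact (hg 0 x y).mul_right (h3 g (fun j => hg j.succ) x y)
      · intro hb
        rcases two hFIT hZ hI _ _ (hn 0) h1 hcm hb with h5 | h5
        · exact ⟨0, h5⟩
        · obtain ⟨j, hj⟩ := h4 h5
          exact ⟨j.succ, hj⟩
  intro n f hn hc hid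
  obtain ⟨h, _, h2, _, h4⟩ := key n f hn hc
  apply h4
  have : (h : A → A) = id := by
    funext x
    rw [h2, hid]; rfl
  rw [this]
  exact Function.bijective_id

end

end Pool.Agent.L0h38.GI.FIT
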