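import Pool.Agent.L0h38.GI.Stm5
import Pool.Agent.L0h68.GI.SIG

/-!
# Module SG3 of project GI3: the bijection of the FA vertices
-/

set_option autoImplicit false

namespace Pool.Agent.L0h38.GI.SG3

open Pool.Agent.L0h38.GI Pool.Agent.L0h68.GI

section basic

variable {V : Type} {Γ : SimpleGraph V} {G : V → Type} [∀ v, Group (G v)]

theorem toPi_conj (h y : GrP Γ G) (v : V) :
    toPi (h⁻¹ * y * h) v = (toPi h v)⁻¹ * toPi y v * toPi h v := by
  rw [map_mul, map_mul, map_inv]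
  rfl

theorem supp_conj (h y : GrP Γ G) (v : V) : toPi (h⁻¹ * y * h) v ≠ 1 ↔ toPi y v ≠ 1 := by
  rw [toPi_conj]
  refine not_congr ?_
  constructor
  · intro h1
    have h2 : toPi y v = toPi h v * ((toPi h v)⁻¹ * toPi y v * toPi h v) * (toPi h v)⁻¹ := by
      group
    rw [h2, h1]
    group
  · intro h1
    rw [h1]
    group

theorem supp_conj' (h y : GrP Γ G) (v : V) : toPi (h * y * h⁻¹) v ≠ 1 ↔ toPi y v ≠ 1 := by
  have := supp_conj h⁻¹ y v
  rwa [inv_inv] at this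

/-- conjugate into the group of a maximal FA clique -/
def Ell (y : GrP Γ G) : Prop := ∃ K : {K // MaxF Γ G K}, ∃ h, h⁻¹ * y * h ∈ P Γ G K.1

theorem mem_supp (hR : S_RET) (hC : S_CLQ) {K : Set V} (hK : Γ.IsClique K) (hf : K.Finite)
    {y : GrP Γ G} (hy : y ∈ P Γ G K) : y ∈ P Γ G {v | toPi y v ≠ 1} :=
  (mem_P_iff hR hC hK hf hy).2 fun _ hv => hv

end basic

section abst

variable {V W : Type} [Finite V] [Finite W] {Γ : SimpleGraph V} {Δ : SimpleGraph W}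
  {G : V → Type} {H : W → Type} [∀ v, Group (G v)] [∀ w, Group (H w)]

theorem exists_clique (v : V) (hv : FA (G v)) : ∃ K : {K // MaxF Γ G K}, v ∈ K.1 := by
  obtain ⟨K, h1, h2⟩ := exists_max (Γ := Γ) (G := G) (K := {v}) ⟨by simp, by
    rintro w rfl
    exact hv⟩
  exact ⟨⟨K, h2⟩, h1 rfl⟩

theorem ell_inj (v : V) (hv : FA (G v)) (x : G v) : Ell (inj Γ G v x) := by
  obtain ⟨K, hK⟩ := exists_clique (Γ := Γ) v hv
  refine ⟨K, 1, ?_⟩
  rw [inv_one, one_mul, mul_one]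
  exact inj_mem hK x

theorem supp_inj {v v' : V} {x : G v} (h : toPi (inj Γ G v x) v' ≠ 1) : v' = v := by
  by_contra hn
  exact h (toPi_inj_ne hn x)

/-- the key lemma -/
theorem exists_same (hR : S_RET) (hC : S_CLQ) (e : GrP Γ G ≃* GrP Δ H) {Θ : Type}
    (a : V → Set Θ) (b : W → Set Θ)
    (hE : ∀ y : GrP Γ G, Ell y → Ell (e y)) (hE' : ∀ y : GrP Δ H, Ell y → Ell (e.symm y))
    (hA : ∀ y : GrP Γ G, Ell y → ∀ θ,
      (∀ v, toPi y v ≠ 1 → θ ∈ a v) ↔ (∀ w, toPi (e y) w ≠ 1 → θ ∈ b w))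
    (v : V) (hv : FA (G v)) (x : G v) (hx : x ≠ 1) :
    ∃ w, FA (H w) ∧ toPi (e (inj Γ G v x)) w ≠ 1 ∧ b w = a v := by
  by_contra hcon
  push Not at hcon
  obtain ⟨K, g, hg⟩ := hE _ (ell_inj v hv x)
  have hsub : ∀ w, toPi (e (inj Γ G v x)) w ≠ 1 → w ∈ K.1 := by
    intro w hw
    by_contra hn
    exact (supp_conj g _ w).2 hw ((hR W Δ H K.1 K.1).2.2.2.2.2 _ hg w hn)
  have hge : ∀ w, toPi (e (inj Γ G v x)) w ≠ 1 → a v ⊆ b w := by
    intro w hw θ hθ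
    refine (hA _ (ell_inj v hv x) θ).1 ?_ w hw
    intro v' hv'
    rw [supp_inj hv']
    exact hθ
  let χ : GrP Δ H →* G v := ((Pi.evalMonoidHom G v).comp (toPi (Γ := Γ))).comp e.symm.toMonoidHom
  have hχ : ∀ y, χ y = toPi (e.symm y) v := fun y => rfl
  have hkill : ∀ w, toPi (e (inj Γ G v x)) w ≠ 1 → ∀ x', inj Δ H w x' ∈ χ.ker := by
    intro w hw x'
    rw [MonoidHom.mem_ker, hχ]
    by_contra hn
    have hFA : FA (H w) := K.2.1.2 w (hsub w hw)
    have h1 : b w ⊆ a v := by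
      intro θ hθ
      refine (hA (e.symm (inj Δ H w x')) (hE' _ (ell_inj w hFA x')) θ).2 ?_ v hn
      intro w' hw'
      rw [MulEquiv.apply_symm_apply] at hw'
      rw [supp_inj hw']
      exact hθ
    exact hcon w hFA hw (Set.Subset.antisymm h1 (hge w hw))
  have h2 : g⁻¹ * e (inj Γ G v x) * g ∈ χ.ker := by
    have h3 := mem_supp hR hC K.2.1.1 (Set.toFinite _) hg
    refine (P_le.2 ?_) h3
    intro w hw x'
    exact hkill w ((supp_conj g _ w).1 hw) x'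
  rw [MonoidHom.mem_ker, map_mul, map_mul, map_inv] at h2
  have h4 : χ (e (inj Γ G v x)) = x := by
    rw [hχ, MulEquiv.symm_apply_apply, toPi_inj_same]
  rw [h4] at h2
  apply hx
  have h5 : x = χ g * ((χ g)⁻¹ * x * χ g) * (χ g)⁻¹ := by group
  rw [h5, h2]
  group

/-- the isomorphism of the vertex groups -/
theorem vertex_iso (hR : S_RET) (hC : S_CLQ) (e : GrP Γ G ≃* GrP Δ H) {Θ : Type}
    (a : V → Set Θ) (b : W → Set Θ)
    (hE : ∀ y : GrP Γ G, Ell y → Ell (e y)) (hE' : ∀ y : GrP Δ H, Ell y → Ell (e.symm y))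
    (hA : ∀ y : GrP Γ G, Ell y → ∀ θ,
      (∀ v, toPi y v ≠ 1 → θ ∈ a v) ↔ (∀ w, toPi (e y) w ≠ 1 → θ ∈ b w))
    (v : V) (hv : FA (G v)) (w : W) (hw : FA (H w)) (hvw : b w = a v)
    (hv1 : ∀ v', FA (G v') → a v' = a v → v' = v) (hw1 : ∀ w', FA (H w') → b w' = b w → w' = w)
    (hU : ∃ (g : GrP Γ G) (K : {K // MaxF Γ G K}), ∀ x',
      g⁻¹ * e.symm (inj Δ H w x') * g ∈ P Γ G K.1) :
    Nonempty (G v ≃* H w) := by
  let χ : GrP Γ G →* H w := ((Pi.evalMonoidHom H w).comp (toPi (Γ := Δ))).comp e.toMonoidHom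
  have hχ : ∀ y, χ y = toPi (e y) w := fun y => rfl
  let φ : G v →* H w := χ.comp (inj Γ G v)
  have hφ : ∀ x, φ x = toPi (e (inj Γ G v x)) w := fun x => rfl
  have hinj : Function.Injective φ := by
    rw [injective_iff_map_eq_one]
    intro x hx
    by_contra hn
    obtain ⟨w', h1, h2, h3⟩ := exists_same hR hC e a b hE hE' hA v hv x hn
    have h4 : w' = w := hw1 w' h1 (h3.trans hvw.symm)
    rw [h4] at h2
    exact h2 hx
  obtain ⟨g, K, hg⟩ := hU
  have hsurj : Function.Surjective φ := by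
    intro t
    let x' : H w := χ g * t * (χ g)⁻¹
    have hy := hg x'
    set y : GrP Γ G := g⁻¹ * e.symm (inj Δ H w x') * g with hyd
    have hsub : ∀ v', toPi y v' ≠ 1 → v' ∈ K.1 := by
      intro v' hv'
      by_contra hn
      exact hv' ((hR V Γ G K.1 K.1).2.2.2.2.2 _ hy v' hn)
    have hys : ∀ v', toPi y v' ≠ 1 → toPi (e.symm (inj Δ H w x')) v' ≠ 1 := fun v' h =>
      (supp_conj g _ v').1 h
    have heq : y ∈ MonoidHom.eqLocus χ (φ.comp ((Pi.evalMonoidHom G v).comp (toPi (Γ := Γ)))) := by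
      have h3 := mem_supp hR hC K.2.1.1 (Set.toFinite _) hy
      refine (P_le.2 ?_) h3
      intro v' hv' x
      show χ (inj Γ G v' x) = φ (toPi (inj Γ G v' x) v)
      by_cases hvv : v' = v
      · subst hvv
        rw [toPi_inj_same]
        rfl
      · rw [toPi_inj_ne (fun h => hvv h.symm), map_one, hχ]
        by_contra hn
        have hFA : FA (G v') := K.2.1.2 v' (hsub v' hv')
        apply hvv
        refine hv1 v' hFA (Set.Subset.antisymm ?_ ?_)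
        · intro θ hθ
          rw [← hvw]
          refine (hA _ (ell_inj v' hFA x) θ).1 ?_ w hn
          intro v'' hv''
          rw [supp_inj hv'']
          exact hθ
        · intro θ hθ
          rw [← hvw] at hθ
          refine (hA (e.symm (inj Δ H w x')) (hE' _ (ell_inj w hw x')) θ).2 ?_ v' (hys v' hv')
          intro w' hw'
          rw [MulEquiv.apply_symm_apply] at hw'
          rw [supp_inj hw']
          exact hθ
    have h5 : χ y = φ (toPi y v) := heq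
    have h6 : χ y = t := by
      rw [hyd, map_mul, map_mul, map_inv]
      have h7 : χ (e.symm (inj Δ H w x')) = x' := by
        rw [hχ, MulEquiv.apply_symm_apply, toPi_inj_same]
      rw [h7]
      show (χ g)⁻¹ * (χ g * t * (χ g)⁻¹) * χ g = t
      group
    exact ⟨toPi y v, by rw [← h5, h6]⟩
  exact ⟨MulEquiv.ofBijective φ ⟨hinj, hsurj⟩⟩

end abst

section main

variable {V W : Type} [Finite V] [Finite W] {Γ : SimpleGraph V} {Δ : SimpleGraph W}
  {G : V → Type} {H : W → Type} [∀ v, Group (G v)] [∀ w, Group (H w)]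

theorem ell_e {e : GrP Γ G ≃* GrP Δ H} {μ : {K // MaxF Γ G K} ≃ {K // MaxF Δ H K}}
    (hμ : ∀ K, ∃ g, ∀ y, y ∈ P Γ G K.1 ↔ g⁻¹ * e y * g ∈ P Δ H (μ K).1) {y : GrP Γ G}
    (h : Ell y) : Ell (e y) := by
  obtain ⟨K, h, hy⟩ := h
  obtain ⟨g, hg⟩ := hμ K
  refine ⟨μ K, e h * g, ?_⟩
  have h1 := (hg _).1 hy
  rw [map_mul, map_mul, map_inv] at h1
  have h2 : (e h * g)⁻¹ * e y * (e h * g) = g⁻¹ * ((e h)⁻¹ * e y * e h) * g := by group
  rw [h2]
  exact h1

theorem ell_e' {e : GrP Γ G ≃* GrP Δ H} {μ : {K // MaxF Γ G K} ≃ {K // MaxF Δ H K}}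
    (hμ : ∀ K, ∃ g, ∀ y, y ∈ P Γ G K.1 ↔ g⁻¹ * e y * g ∈ P Δ H (μ K).1) {y : GrP Δ H}
    (h : Ell y) : Ell (e.symm y) := by
  obtain ⟨K, h, hy⟩ := h
  obtain ⟨g, hg⟩ := hμ (μ.symm K)
  refine ⟨μ.symm K, e.symm (h * g⁻¹), ?_⟩
  rw [hg, Equiv.apply_symm_apply, map_mul, map_mul, map_inv]
  simp only [MulEquiv.apply_symm_apply]
  have h2 : g⁻¹ * ((h * g⁻¹)⁻¹ * y * (h * g⁻¹)) * g = h⁻¹ * y * h := by group
  rw [h2]
  exact hy

theorem test_clique (hR : S_RET) (hC : S_CLQ) {e : GrP Γ G ≃* GrP Δ H}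
    {μ : {K // MaxF Γ G K} ≃ {K // MaxF Δ H K}}
    (hμ : ∀ K, ∃ g, ∀ y, y ∈ P Γ G K.1 ↔ g⁻¹ * e y * g ∈ P Δ H (μ K).1) {y : GrP Γ G}
    (h : Ell y) (K' : {K // MaxF Δ H K}) :
    (∀ v, toPi y v ≠ 1 → v ∈ (μ.symm K').1) ↔ (∀ w, toPi (e y) w ≠ 1 → w ∈ K'.1) := by
  obtain ⟨K, h, hy⟩ := h
  obtain ⟨g, hg⟩ := hμ K
  obtain ⟨g0, hg0⟩ := hμ (μ.symm K')
  rw [Equiv.apply_symm_apply] at hg0
  set y0 : GrP Γ G := h⁻¹ * y * h with hy0
  have s1 : ∀ v, toPi y0 v ≠ 1 ↔ toPi y v ≠ 1 := supp_conj h y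
  have s2 : ∀ w, toPi (e y0) w ≠ 1 ↔ toPi (e y) w ≠ 1 := by
    intro w
    have : e y0 = (e h)⁻¹ * e y * e h := by rw [hy0, map_mul, map_mul, map_inv]
    rw [this]
    exact supp_conj _ _ w
  have hz := (hg _).1 hy
  constructor
  · intro hs w hw
    have h1 : y0 ∈ P Γ G (μ.symm K').1 :=
      (mem_P_iff hR hC K.2.1.1 (Set.toFinite _) hy).2 fun v hv => hs v ((s1 v).1 hv)
    have h2 := (hg0 _).1 h1
    by_contra hn
    have h3 := (hR W Δ H K'.1 K'.1).2.2.2.2.2 _ h2 w hn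
    exact (supp_conj g0 _ w).2 ((s2 w).2 hw) h3
  · intro hs v hv
    have h1 : g⁻¹ * e y0 * g ∈ P Δ H K'.1 :=
      (mem_P_iff hR hC (μ K).2.1.1 (Set.toFinite _) hz).2 fun w hw =>
        hs w ((s2 w).1 ((supp_conj g _ w).1 hw))
    have h2 : e.symm (g0 * g⁻¹) * y0 * (e.symm (g0 * g⁻¹))⁻¹ ∈ P Γ G (μ.symm K').1 := by
      rw [hg0, map_mul, map_mul, map_inv]
      simp only [MulEquiv.apply_symm_apply]
      have h3 : g0⁻¹ * (g0 * g⁻¹ * e y0 * (g0 * g⁻¹)⁻¹) * g0 = g⁻¹ * e y0 * g := by group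
      rw [h3]
      exact h1
    by_contra hn
    have h3 := (hR V Γ G (μ.symm K').1 (μ.symm K').1).2.2.2.2.2 _ h2 v hn
    exact (supp_conj' _ _ v).2 ((s1 v).2 hv) h3

/-- SG3 -/
theorem t_SG3 (hMU : S_MU) (hX : S_UX) (hC : S_CLQ) (hR : S_RET) (hZ : S_FAZ) : S_SG3 := by
  intro V W _ _ Γ Δ G H _ _ _ _ _ _ hG hH hnG hnH e c d L
  obtain ⟨μ, hμ⟩ := hMU V W Γ Δ G H hG hH e
  have hnotZ : ∀ {X : Type} [Group X], FA X → ¬ IsZ X := by
    rintro X _ hF ⟨f⟩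
    have h1 := hZ X hF f.toMonoidHom (f.symm (Multiplicative.ofAdd 1))
    have h2 : f (f.symm (Multiplicative.ofAdd 1)) = Multiplicative.ofAdd 0 := h1
    have h3 : Multiplicative.ofAdd (1 : ℤ) = Multiplicative.ofAdd 0 :=
      (f.apply_symm_apply _).symm.trans h2
    exact absurd (Multiplicative.ofAdd.injective h3) (by norm_num)
  let Θ : Type := {K // MaxF Δ H K} ⊕ (VZ H → ℤ)
  let a : V → Set Θ := fun v => {θ | (∀ K', θ = Sum.inl K' → v ∈ (μ.symm K').1) ∧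
    ∀ u, θ = Sum.inr u → ∀ i : VZ G, L.T'.mulVec u i ≠ 0 → Γ.Adj v i.1}
  let b : W → Set Θ := fun w => {θ | (∀ K', θ = Sum.inl K' → w ∈ K'.1) ∧
    ∀ u, θ = Sum.inr u → ∀ j : VZ H, u j ≠ 0 → Δ.Adj w j.1}
  have aK : ∀ v K', (Sum.inl K' : Θ) ∈ a v ↔ v ∈ (μ.symm K').1 := by
    intro v K'
    constructor
    · intro h; exact h.1 K' rfl
    · intro h
      refine ⟨fun K'' h1 => ?_, fun u h1 => ?_⟩
      · rw [← Sum.inl_injective h1]; exact h
      · exact absurd h1 Sum.inl_ne_inr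
  have aU : ∀ v u, (Sum.inr u : Θ) ∈ a v ↔
      ∀ i : VZ G, L.T'.mulVec u i ≠ 0 → Γ.Adj v i.1 := by
    intro v u
    constructor
    · intro h; exact h.2 u rfl
    · intro h
      refine ⟨fun K'' h1 => ?_, fun u' h1 => ?_⟩
      · exact absurd h1 Sum.inr_ne_inl
      · rw [← Sum.inr_injective h1]; exact h
  have bK : ∀ w K', (Sum.inl K' : Θ) ∈ b w ↔ w ∈ K'.1 := by
    intro v K'
    constructor
    · intro h; exact h.1 K' rfl
    · intro h
      refine ⟨fun K'' h1 => ?_, fun u h1 => ?_⟩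
      · rw [← Sum.inl_injective h1]; exact h
      · exact absurd h1 Sum.inl_ne_inr
  have bU : ∀ w u, (Sum.inr u : Θ) ∈ b w ↔ ∀ j : VZ H, u j ≠ 0 → Δ.Adj w j.1 := by
    intro v u
    constructor
    · intro h; exact h.2 u rfl
    · intro h
      refine ⟨fun K'' h1 => ?_, fun u' h1 => ?_⟩
      · exact absurd h1 Sum.inr_ne_inl
      · rw [← Sum.inr_injective h1]; exact h
  have hE : ∀ y : GrP Γ G, Ell y → Ell (e y) := fun y h => ell_e hμ h
  have hE' : ∀ y : GrP Δ H, Ell y → Ell (e.symm y) := fun y h => ell_e' hμ h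
  have hA : ∀ y : GrP Γ G, Ell y → ∀ θ,
      (∀ v, toPi y v ≠ 1 → θ ∈ a v) ↔ (∀ w, toPi (e y) w ≠ 1 → θ ∈ b w) := by
    intro y hy θ
    rcases θ with K' | u
    · have := test_clique hR hC hμ hy K'
      constructor
      · intro h w hw
        rw [bK]
        exact this.1 (fun v hv => (aK v K').1 (h v hv)) w hw
      · intro h v hv
        rw [aK]
        exact this.2 (fun w hw => (bK w K').1 (h w hw)) v hv
    · obtain ⟨K, h, hyK⟩ := hy
      obtain ⟨g, hg⟩ := hμ K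
      have h1 := key hX e c d L (I := K.1) (I' := (μ K).1) K.2.1 (μ K).2.1 g hyK ((hg _).1 hyK) u
      have s1 : ∀ v, toPi (h⁻¹ * y * h) v ≠ 1 ↔ toPi y v ≠ 1 := supp_conj h y
      have s2 : ∀ w, toPi (g⁻¹ * e (h⁻¹ * y * h) * g) w ≠ 1 ↔ toPi (e y) w ≠ 1 := by
        intro w
        rw [supp_conj]
        have : e (h⁻¹ * y * h) = (e h)⁻¹ * e y * e h := by rw [map_mul, map_mul, map_inv]
        rw [this]
        exact supp_conj _ _ w
      constructor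
      · intro h2 w hw
        rw [bU]
        exact h1.1 (fun v hv => (aU v u).1 (h2 v ((s1 v).1 hv))) w ((s2 w).2 hw)
      · intro h2 v hv
        rw [aU]
        exact h1.2 (fun w hw => (bU w u).1 (h2 w ((s2 w).1 hw))) v ((s1 v).2 hv)
  have hA' : ∀ y : GrP Δ H, Ell y → ∀ θ,
      (∀ w, toPi y w ≠ 1 → θ ∈ b w) ↔ (∀ v, toPi (e.symm y) v ≠ 1 → θ ∈ a v) := by
    intro y hy θ
    have := hA (e.symm y) (hE' y hy) θ
    rw [MulEquiv.apply_symm_apply] at this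
    exact this.symm
  -- the signatures are different
  have hone : ∀ i : VZ G, L.T'.mulVec (L.T.mulVec (Pi.single i 1)) = Pi.single i 1 := by
    intro i
    rw [Matrix.mulVec_mulVec, L.h2, Matrix.one_mulVec]
  have ha1 : ∀ v, FA (G v) → ∀ v', FA (G v') → a v' = a v → v' = v := by
    intro v hv v' hv' hav
    by_contra hne
    have hK : ∀ K : {K // MaxF Γ G K}, v' ∈ K.1 ↔ v ∈ K.1 := by
      intro K
      have h1 := Set.ext_iff.1 hav (Sum.inl (μ K))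
      rw [aK, aK, Equiv.symm_apply_apply] at h1
      exact h1
    have hadj : ∀ x x' : {v // FA (G v)}, (∀ K : {K // MaxF Γ G K}, x.1 ∈ K.1 ↔ x'.1 ∈ K.1) →
        ∀ u, u ≠ x.1 → u ≠ x'.1 → FA (G u) → Γ.Adj x.1 u → Γ.Adj x'.1 u := by
      intro x x' hxx u hu hu' hFu hadj
      obtain ⟨-, K, hK1, hK2, hK3⟩ := (adj_iff (Γ := Γ) (G := G) x ⟨u, hFu⟩).1 hadj
      refine (adj_iff (Γ := Γ) (G := G) x' ⟨u, hFu⟩).2 ⟨fun h => hu' ?_, K, hK1, ?_, hK3⟩
      · rw [h]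
      · exact (hxx ⟨K, hK1⟩).1 hK2
    have htw : Twin Γ v v' := by
      constructor
      · obtain ⟨K, hK1⟩ := exists_clique (Γ := Γ) v hv
        exact K.2.1.1 hK1 ((hK K).2 hK1) (fun h => hne h.symm)
      · intro u hu hu'
        rcases (hG u).1 with hFu | hZu
        · constructor
          · exact hadj ⟨v, hv⟩ ⟨v', hv'⟩ (fun K => (hK K).symm) u hu hu' hFu
          · exact hadj ⟨v', hv'⟩ ⟨v, hv⟩ hK u hu' hu hFu
        · have h1 := Set.ext_iff.1 hav (Sum.inr (L.T.mulVec (Pi.single ⟨u, hZu⟩ 1)))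
          rw [aU, aU, hone] at h1
          have h2 : ∀ x : V, (∀ i : VZ G, (Pi.single (⟨u, hZu⟩ : VZ G) (1 : ℤ) : VZ G → ℤ) i ≠ 0 →
              Γ.Adj x i.1) ↔ Γ.Adj x u := by
            intro x
            constructor
            · intro h
              exact h ⟨u, hZu⟩ (by rw [Pi.single_eq_same]; exact one_ne_zero)
            · intro h i hi
              rcases eq_or_ne i ⟨u, hZu⟩ with rfl | hne'
              · exact h
              · exact absurd (Pi.single_eq_of_ne hne' 1) hi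
          rw [h2, h2] at h1
          exact h1.symm
    rcases hnG v v' htw with h | h
    · exact hnotZ hv h
    · exact hnotZ hv' h
  have hb1 : ∀ w, FA (H w) → ∀ w', FA (H w') → b w' = b w → w' = w := by
    intro v hv v' hv' hav
    by_contra hne
    have hK : ∀ K : {K // MaxF Δ H K}, v' ∈ K.1 ↔ v ∈ K.1 := by
      intro K
      have h1 := Set.ext_iff.1 hav (Sum.inl K)
      rw [bK, bK] at h1
      exact h1
    have hadj : ∀ x x' : {v // FA (H v)}, (∀ K : {K // MaxF Δ H K}, x.1 ∈ K.1 ↔ x'.1 ∈ K.1) →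
        ∀ u, u ≠ x.1 → u ≠ x'.1 → FA (H u) → Δ.Adj x.1 u → Δ.Adj x'.1 u := by
      intro x x' hxx u hu hu' hFu hadj
      obtain ⟨-, K, hK1, hK2, hK3⟩ := (adj_iff (Γ := Δ) (G := H) x ⟨u, hFu⟩).1 hadj
      refine (adj_iff (Γ := Δ) (G := H) x' ⟨u, hFu⟩).2 ⟨fun h => hu' ?_, K, hK1, ?_, hK3⟩
      · rw [h]
      · exact (hxx ⟨K, hK1⟩).1 hK2
    have htw : Twin Δ v v' := by
      constructor
      · obtain ⟨K, hK1⟩ := exists_clique (Γ := Δ) v hv
        exact K.2.1.1 hK1 ((hK K).2 hK1) (fun h => hne h.symm)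
      · intro u hu hu'
        rcases (hH u).1 with hFu | hZu
        · constructor
          · exact hadj ⟨v, hv⟩ ⟨v', hv'⟩ (fun K => (hK K).symm) u hu hu' hFu
          · exact hadj ⟨v', hv'⟩ ⟨v, hv⟩ hK u hu' hu hFu
        · have h1 := Set.ext_iff.1 hav (Sum.inr (Pi.single ⟨u, hZu⟩ 1))
          rw [bU, bU] at h1
          have h2 : ∀ x : W, (∀ i : VZ H, (Pi.single (⟨u, hZu⟩ : VZ H) (1 : ℤ) : VZ H → ℤ) i ≠ 0 →
              Δ.Adj x i.1) ↔ Δ.Adj x u := by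
            intro x
            constructor
            · intro h
              exact h ⟨u, hZu⟩ (by rw [Pi.single_eq_same]; exact one_ne_zero)
            · intro h i hi
              rcases eq_or_ne i ⟨u, hZu⟩ with rfl | hne'
              · exact h
              · exact absurd (Pi.single_eq_of_ne hne' 1) hi
          rw [h2, h2] at h1
          exact h1.symm
    rcases hnH v v' htw with h | h
    · exact hnotZ hv h
    · exact hnotZ hv' h
  have ex1 : ∀ v : {v // FA (G v)}, ∃ w : {w // FA (H w)}, b w.1 = a v.1 := by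
    intro v
    obtain ⟨x, hx⟩ := (hG v.1).2
    obtain ⟨w, h1, -, h2⟩ := exists_same hR hC e a b hE hE' hA v.1 v.2 x hx
    exact ⟨⟨w, h1⟩, h2⟩
  have ex2 : ∀ w : {w // FA (H w)}, ∃ v : {v // FA (G v)}, a v.1 = b w.1 := by
    intro w
    obtain ⟨x, hx⟩ := (hH w.1).2
    obtain ⟨v, h1, -, h2⟩ := exists_same hR hC e.symm b a hE' hE hA' w.1 w.2 x hx
    exact ⟨⟨v, h1⟩, h2⟩
  choose s hs using ex1
  choose t ht using ex2
  let σ : {v // FA (G v)} ≃ {w // FA (H w)} :=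
    { toFun := s
      invFun := t
      left_inv := fun v => Subtype.ext (ha1 v.1 v.2 _ (t (s v)).2 ((ht (s v)).trans (hs v)))
      right_inv := fun w => Subtype.ext (hb1 w.1 w.2 _ (s (t w)).2 ((hs (t w)).trans (ht w))) }
  have hσ : ∀ v, b (σ v).1 = a v.1 := hs
  refine ⟨σ, fun v => ?_, fun v v' => ?_, fun v z => ?_⟩
  · refine vertex_iso hR hC e a b hE hE' hA v.1 v.2 (σ v).1 (σ v).2 (hσ v)
      (fun v' h1 h2 => ha1 v.1 v.2 v' h1 h2) (fun w' h1 h2 => hb1 _ (σ v).2 w' h1 h2) ?_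
    obtain ⟨K', hK'⟩ := exists_clique (Γ := Δ) (σ v).1 (σ v).2
    obtain ⟨g, hg⟩ := hμ (μ.symm K')
    refine ⟨e.symm g⁻¹, μ.symm K', fun x' => ?_⟩
    rw [hg, Equiv.apply_symm_apply, map_mul, map_mul, map_inv]
    simp only [MulEquiv.apply_symm_apply]
    have h2 : g⁻¹ * ((g⁻¹)⁻¹ * inj Δ H (σ v).1 x' * g⁻¹) * g = inj Δ H (σ v).1 x' := by group
    rw [h2]
    exact inj_mem hK' x'
  · have h2 : ∀ v K', (σ v).1 ∈ K'.1 ↔ v.1 ∈ (μ.symm K').1 := by
      intro v K'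
      have h1 := Set.ext_iff.1 (hσ v) (Sum.inl K')
      rwa [aK, bK] at h1
    rw [adj_iff, adj_iff]
    refine and_congr (not_congr σ.injective.eq_iff.symm) ⟨?_, ?_⟩
    · rintro ⟨K, hK1, hv, hv'⟩
      refine ⟨(μ ⟨K, hK1⟩).1, (μ ⟨K, hK1⟩).2, (h2 v _).2 ?_, (h2 v' _).2 ?_⟩
      · rw [Equiv.symm_apply_apply]; exact hv
      · rw [Equiv.symm_apply_apply]; exact hv'
    · rintro ⟨K', hK1, hv, hv'⟩
      exact ⟨(μ.symm ⟨K', hK1⟩).1, (μ.symm ⟨K', hK1⟩).2, (h2 v ⟨K', hK1⟩).1 hv,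
        (h2 v' ⟨K', hK1⟩).1 hv'⟩
  · have h3 := Set.ext_iff.1 (hσ v) (Sum.inr (L.T.mulVec z))
    rw [aU, bU, Matrix.mulVec_mulVec, L.h2, Matrix.one_mulVec] at h3
    exact h3.symm

end main

end Pool.Agent.L0h38.GI.SG3
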