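import Pool.Agent.L0h38.GI.SYL1

/-!
# Project GI, module SYL: part 2 (linear isomorphisms give isomorphisms)
-/

set_option autoImplicit false

namespace Pool.Agent.L0h38.GI.SYL

open Matrix

section com

variable {n : ℕ} {F : Type} [Field F] {K : Type}

/-- `x ∧ y` is a combination of the `e_i ∧ e_k` with `i, k` adjacent -/
def Com (B : SimpleGraph (Fin n)) (x y : Fin n → F) : Prop :=
  ∀ c d, c ≠ d → ¬ B.Adj c d → x c * y d = x d * y c

/-- supported on `R` -/
def Sup (R : Set (Fin n)) (x : Fin n → F) : Prop := ∀ c, c ∉ R → x c = 0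

/-- preserves everything -/
structure Mp (A B : SimpleGraph (Fin n)) (S S' : K → Set (Fin n))
    (g : Matrix (Fin n) (Fin n) F) : Prop where
  com : ∀ x y, Com A x y → Com B (g.mulVec x) (g.mulVec y)
  sup : ∀ k x, Sup (S k) x → Sup (S' k) (g.mulVec x)

theorem Mp.mul {A B C : SimpleGraph (Fin n)} {S S' S'' : K → Set (Fin n)}
    {g h : Matrix (Fin n) (Fin n) F} (h1 : Mp A B S S' g) (h2 : Mp B C S' S'' h) :
    Mp A C S S'' (h * g) where
  com x y hxy := by
    rw [← Matrix.mulVec_mulVec, ← Matrix.mulVec_mulVec]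
    exact h2.com _ _ (h1.com _ _ hxy)
  sup k x hx := by
    rw [← Matrix.mulVec_mulVec]
    exact h2.sup _ _ (h1.sup _ _ hx)

theorem mp_diag (A : SimpleGraph (Fin n)) (S : K → Set (Fin n)) (d : Fin n → F) :
    Mp A A S S (Matrix.diagonal d) where
  com x y hxy := by
    intro a b hab hA
    rw [Matrix.mulVec_diagonal, Matrix.mulVec_diagonal, Matrix.mulVec_diagonal,
      Matrix.mulVec_diagonal]
    have := hxy a b hab hA
    linear_combination (d a * d b) * this
  sup k x hx := by
    intro a ha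
    rw [Matrix.mulVec_diagonal, hx a ha, mul_zero]

theorem mp_one (A : SimpleGraph (Fin n)) (S : K → Set (Fin n)) :
    Mp A A S S (1 : Matrix (Fin n) (Fin n) F) := by
  have := mp_diag (F := F) A S (fun _ => 1)
  rwa [Matrix.diagonal_one] at this

theorem mp_of (h2 : (2 : F) ≠ 0) {A B : SimpleGraph (Fin n)} {S S' : K → Set (Fin n)}
    (T : Matrix (Fin n) (Fin n) F)
    (a1 : ∀ i k, A.Adj i k → ∀ c d, c ≠ d → ¬ B.Adj c d → T c i * T d k = T d i * T c k)
    (s1 : ∀ k, ∀ i ∈ S k, ∀ c, c ∉ S' k → T c i = 0) : Mp A B S S' T where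
  com x y hxy := by
    intro c d hcd hB
    rw [← sub_eq_zero]
    set s := T.mulVec x c * T.mulVec y d - T.mulVec x d * T.mulVec y c with hs
    have e1 : s = ∑ i, ∑ k, (T c i * T d k - T d i * T c k) * (x i * y k) := by
      rw [hs]
      simp only [Matrix.mulVec, dotProduct]
      rw [Finset.sum_mul_sum, Finset.sum_mul_sum, ← Finset.sum_sub_distrib]
      apply Finset.sum_congr rfl
      intro i _
      rw [← Finset.sum_sub_distrib]
      apply Finset.sum_congr rfl
      intro k _
      ring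
    have e2 : s = - s := by
      conv_lhs => rw [e1, Finset.sum_comm]
      rw [e1, ← Finset.sum_neg_distrib]
      apply Finset.sum_congr rfl
      intro i _
      rw [← Finset.sum_neg_distrib]
      apply Finset.sum_congr rfl
      intro k _
      by_cases hik : i = k
      · subst hik; ring
      · by_cases hA : A.Adj i k
        · have h3 := a1 i k hA c d hcd hB
          have h4 := a1 k i hA.symm c d hcd hB
          rw [h3, h4]; ring
        · have h3 := hxy i k hik hA
          have h5 : x k * y i = x i * y k := h3.symm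
          rw [h5]; ring
    have e3 : 2 * s = 0 := by linear_combination e2
    exact (mul_eq_zero.1 e3).resolve_left h2
  sup k x hx := by
    intro c hc
    rw [Matrix.mulVec, dotProduct]
    apply Finset.sum_eq_zero
    intro i _
    by_cases hi : i ∈ S k
    · rw [s1 k i hi c hc, zero_mul]
    · rw [hx i hi, mul_zero]

/-- the stabiliser -/
def Yg (B : SimpleGraph (Fin n)) (S : K → Set (Fin n)) : Subgroup (GL (Fin n) F) where
  carrier := {g | Mp B B S S (g : Matrix (Fin n) (Fin n) F) ∧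
    Mp B B S S ((g⁻¹ : GL (Fin n) F) : Matrix (Fin n) (Fin n) F)}
  one_mem' := by
    refine ⟨?_, ?_⟩
    · exact mp_one B S
    · rw [inv_one]; exact mp_one B S
  mul_mem' := by
    rintro g h ⟨g1, g2⟩ ⟨h1, h2⟩
    refine ⟨?_, ?_⟩
    · exact h1.mul g1
    · rw [_root_.mul_inv_rev]; exact g2.mul h2
  inv_mem' := by
    rintro g ⟨g1, g2⟩
    refine ⟨g2, ?_⟩
    rw [inv_inv]; exact g1

theorem com_single {B : SimpleGraph (Fin n)} {i k : Fin n} (hik : i ≠ k) {a b : F} (ha : a ≠ 0)
    (hb : b ≠ 0) : Com B (Pi.single i a) (Pi.single k b) ↔ B.Adj i k := by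
  constructor
  · intro h
    by_contra hB
    have := h i k hik hB
    rw [Pi.single_eq_same, Pi.single_eq_same, Pi.single_eq_of_ne hik.symm, zero_mul] at this
    exact mul_ne_zero ha hb this
  · intro h c d hcd hB
    by_cases hc : c = i
    · subst hc
      have hd : d ≠ k := by rintro rfl; exact hB h
      rw [Pi.single_eq_of_ne hd, Pi.single_eq_of_ne hcd.symm, mul_zero, zero_mul]
    · rw [Pi.single_eq_of_ne hc, zero_mul]
      by_cases hd : d = i
      · subst hd
        have hc' : c ≠ k := by rintro rfl; exact hB h.symm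
        rw [Pi.single_eq_of_ne hc', mul_zero]
      · rw [Pi.single_eq_of_ne hd, zero_mul]

theorem sup_single {R : Set (Fin n)} {i : Fin n} {a : F} (ha : a ≠ 0) :
    Sup R (Pi.single i a) ↔ i ∈ R := by
  constructor
  · intro h
    by_contra hi
    have := h i hi
    rw [Pi.single_eq_same] at this
    exact ha this
  · intro h c hc
    rw [Pi.single_eq_of_ne]
    rintro rfl; exact hc h

theorem mulVec_inj (M : GL (Fin n) F) {x y : Fin n → F}
    (h : (M : Matrix (Fin n) (Fin n) F).mulVec x = (M : Matrix (Fin n) (Fin n) F).mulVec y) :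
    x = y := by
  have h1 := congrArg (fun z => ((M⁻¹ : GL (Fin n) F) : Matrix (Fin n) (Fin n) F).mulVec z) h
  simp only [Matrix.mulVec_mulVec] at h1
  have h2 : ((M⁻¹ : GL (Fin n) F) : Matrix (Fin n) (Fin n) F) * (M : Matrix (Fin n) (Fin n) F) = 1 := by
    rw [← Units.val_mul, inv_mul_cancel]; rfl
  rwa [h2, Matrix.one_mulVec, Matrix.one_mulVec] at h1

/-- a matrix which normalises the diagonal group is monomial -/
theorem monomial {Q : Subgroup Fˣ} (hQ : ∃ ζ ∈ Q, ζ ≠ 1) (M : GL (Fin n) F)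
    (hM : ∀ g, g ∈ DQ n Q ↔ M * g * M⁻¹ ∈ DQ n Q) :
    ∃ π : Equiv.Perm (Fin n), ∀ i, ∃ a : F, a ≠ 0 ∧
      (M : Matrix (Fin n) (Fin n) F).mulVec (Pi.single i 1) = Pi.single (π i) a := by
  obtain ⟨ζ, hζ, hζ1⟩ := hQ
  set m : Matrix (Fin n) (Fin n) F := (M : Matrix (Fin n) (Fin n) F) with hm
  have hcol : ∀ i, m.mulVec (Pi.single i 1) = fun c => m c i := by
    intro i
    funext c
    rw [Matrix.mulVec_single_one]
    rfl
  have hex : ∀ i, ∃ c, m c i ≠ 0 := by
    intro i
    by_contra hall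
    push Not at hall
    have h1 : m.mulVec (Pi.single i 1) = m.mulVec 0 := by
      rw [hcol, Matrix.mulVec_zero]
      funext c; exact hall c
    have h2 := mulVec_inj M h1
    have h3 := congrFun h2 i
    rw [Pi.single_eq_same] at h3
    exact one_ne_zero h3
  have huniq : ∀ i c c', m c i ≠ 0 → m c' i ≠ 0 → c = c' := by
    intro i c c' hc hc'
    by_contra hne
    classical
    have hd : dg (Pi.mulSingle c ζ : Fin n → Fˣ) ∈ DQ n Q := by
      refine mem_DQ.2 ⟨_, fun k => ?_, rfl⟩
      by_cases hk : k = c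
      · subst hk; rw [Pi.mulSingle_eq_same]; exact hζ
      · rw [Pi.mulSingle_eq_of_ne hk]; exact one_mem _
    have h1 : M⁻¹ * dg (Pi.mulSingle c ζ : Fin n → Fˣ) * M ∈ DQ n Q := by
      rw [hM]
      have : M * (M⁻¹ * dg (Pi.mulSingle c ζ : Fin n → Fˣ) * M) * M⁻¹ =
        dg (Pi.mulSingle c ζ : Fin n → Fˣ) := by group
      rw [this]; exact hd
    obtain ⟨d, _, hd2⟩ := mem_DQ.1 h1
    have h2 : M * dg d = dg (Pi.mulSingle c ζ : Fin n → Fˣ) * M := by
      rw [hd2]; group
    have h3 := congrArg (fun g : GL (Fin n) F => (g : Matrix (Fin n) (Fin n) F)) h2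
    simp only [Units.val_mul, dg_val] at h3
    have h4 := congrFun (congrFun h3 c) i
    have h5 := congrFun (congrFun h3 c') i
    rw [Matrix.mul_diagonal, Matrix.diagonal_mul] at h4 h5
    rw [Pi.mulSingle_eq_same] at h4
    rw [Pi.mulSingle_eq_of_ne (Ne.symm hne)] at h5
    have h6 : (d i : F) = ζ := by
      have : m c i * ((d i : F) - ζ) = 0 := by
        have h4' : m c i * (d i : F) = (ζ : F) * m c i := h4
        linear_combination h4'
      exact sub_eq_zero.1 ((mul_eq_zero.1 this).resolve_left hc)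
    have h7 : (d i : F) = 1 := by
      have : m c' i * ((d i : F) - 1) = 0 := by
        have h5' : m c' i * (d i : F) = ((1 : Fˣ) : F) * m c' i := h5
        rw [Units.val_one] at h5'
        linear_combination h5'
      exact sub_eq_zero.1 ((mul_eq_zero.1 this).resolve_left hc')
    apply hζ1
    apply Units.ext
    rw [← h6, h7]; rfl
  choose π hπ using hex
  have hsing : ∀ i, m.mulVec (Pi.single i 1) = Pi.single (π i) (m (π i) i) := by
    intro i
    rw [hcol]
    funext c
    by_cases hc : c = π i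
    · subst hc; rw [Pi.single_eq_same]
    · rw [Pi.single_eq_of_ne hc]
      by_contra h0
      exact hc (huniq i c (π i) h0 (hπ i))
  have hinj : Function.Injective π := by
    intro i k hik
    by_contra hne
    have h1 : m.mulVec (m (π i) k • Pi.single i 1) = m.mulVec (m (π i) i • Pi.single k 1) := by
      rw [Matrix.mulVec_smul, Matrix.mulVec_smul, hsing, hsing, ← hik, ← Pi.single_smul',
        ← Pi.single_smul']
      congr 1
      simp only [smul_eq_mul]
      ring
    have h2 := congrFun (mulVec_inj M h1) i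
    simp only [Pi.smul_apply, Pi.single_eq_same, smul_eq_mul, mul_one,
      Pi.single_eq_of_ne hne, mul_zero] at h2
    apply hπ k
    rw [← hik]; exact h2
  refine ⟨Equiv.ofBijective π (Finite.injective_iff_bijective.1 hinj), fun i =>
    ⟨m (π i) i, hπ i, ?_⟩⟩
  rw [hsing]; rfl

end com

/-- SYL for `Fin n` -/
theorem syl_fin (n : ℕ) (K : Type) (A B : SimpleGraph (Fin n)) (S S' : K → Set (Fin n))
    (L : LinIso A B S S') :
    ∃ π : Fin n ≃ Fin n, (∀ i k, A.Adj i k ↔ B.Adj (π i) (π k)) ∧ ∀ k i, i ∈ S k ↔ π i ∈ S' k := by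
  obtain ⟨ℓ, hnℓ, hℓ⟩ := Nat.exists_infinite_primes (n + 1)
  obtain ⟨p, hp, hp2, hpℓ⟩ := Nat.exists_prime_gt_modEq_one (k := ℓ) 2 hℓ.ne_zero
  have : Fact p.Prime := ⟨hp⟩
  have : Fact ℓ.Prime := ⟨hℓ⟩
  obtain ⟨Q⟩ : Nonempty (Sylow ℓ (ZMod p)ˣ) := inferInstance
  have h2 : (2 : ZMod p) ≠ 0 := by
    have : ((2 : ℕ) : ZMod p) ≠ 0 := by
      rw [Ne, CharP.cast_eq_zero_iff (ZMod p) p]
      intro hd
      exact absurd (Nat.le_of_dvd two_pos hd) (not_le.2 hp2)
    exact_mod_cast this
  let φ := Int.castRingHom (ZMod p)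
  let t : GL (Fin n) (ZMod p) := ⟨L.T.map φ, L.T'.map φ, by
      rw [← Matrix.map_mul, L.h1, Matrix.map_one _ (map_zero φ) (map_one φ)], by
      rw [← Matrix.map_mul, L.h2, Matrix.map_one _ (map_zero φ) (map_one φ)]⟩
  have ht : Mp A B S S' (t : Matrix (Fin n) (Fin n) (ZMod p)) := by
    refine mp_of h2 _ ?_ ?_
    · intro i k hik c d hcd hB
      have := congrArg φ (L.a1 i k hik c d hcd hB)
      rw [map_mul, map_mul] at this
      exact this
    · intro k i hi c hc
      show φ (L.T c i) = 0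
      rw [L.s1 k i hi c hc, map_zero]
  have ht' : Mp B A S' S ((t⁻¹ : GL (Fin n) (ZMod p)) : Matrix (Fin n) (Fin n) (ZMod p)) := by
    refine mp_of h2 _ ?_ ?_
    · intro i k hik c d hcd hB
      have := congrArg φ (L.a2 i k hik c d hcd hB)
      rw [map_mul, map_mul] at this
      exact this
    · intro k i hi c hc
      show φ (L.T' c i) = 0
      rw [L.s2 k i hi c hc, map_zero]
  have hdg : ∀ g ∈ DQ n Q.1, ∀ (C : SimpleGraph (Fin n)) (R : K → Set (Fin n)),
      Mp C C R R (g : Matrix (Fin n) (Fin n) (ZMod p)) := by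
    intro g hg C R
    obtain ⟨d, _, rfl⟩ := mem_DQ.1 hg
    rw [dg_val]
    exact mp_diag C R _
  obtain ⟨y, hy, hyM⟩ := conj_in p ℓ n hpℓ (by omega) Q (Yg B S') t
    (fun g hg => ⟨hdg g hg B S', hdg g⁻¹ (inv_mem hg) B S'⟩) (by
      rintro _ ⟨g, hg, rfl⟩
      refine ⟨?_, ?_⟩
      · have e : (((MulAut.conj t).toMonoidHom g : GL (Fin n) (ZMod p)) :
            Matrix (Fin n) (Fin n) (ZMod p)) = t.val * (g.val * (t⁻¹).val) := by
          show ((t * g * t⁻¹ : GL (Fin n) (ZMod p)) : Matrix (Fin n) (Fin n) (ZMod p)) = _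
          rw [Units.val_mul, Units.val_mul, mul_assoc]
        rw [e]
        exact (ht'.mul (hdg g hg A S)).mul ht
      · have h3 : ((MulAut.conj t).toMonoidHom g)⁻¹ = t * g⁻¹ * t⁻¹ := by
          show (t * g * t⁻¹)⁻¹ = _
          group
        have e : ((t * g⁻¹ * t⁻¹ : GL (Fin n) (ZMod p)) :
            Matrix (Fin n) (Fin n) (ZMod p)) = t.val * ((g⁻¹).val * (t⁻¹).val) := by
          rw [Units.val_mul, Units.val_mul, mul_assoc]
        rw [h3, e]
        exact (ht'.mul (hdg g⁻¹ (inv_mem hg) A S)).mul ht)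
  have hζ : ∃ ζ ∈ Q.1, ζ ≠ 1 := by
    have hcard := Q.card_eq_multiplicity
    rw [Nat.card_eq_fintype_card (α := (ZMod p)ˣ), ZMod.card_units] at hcard
    have hdiv : ℓ ∣ p - 1 := (Nat.modEq_iff_dvd' hp.one_lt.le).1 hpℓ.symm
    have h4 : (p - 1).factorization ℓ ≠ 0 := by
      have h5 : p - 1 ≠ 0 := by have := hp.two_le; omega
      have h6 := (hℓ.dvd_iff_one_le_factorization h5).1 hdiv
      omega
    have h6 : Nat.card Q.1 ≠ 1 := by
      intro h7
      have h8 : ℓ ^ (p - 1).factorization ℓ = 1 := by rw [← hcard]; exact h7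
      rw [Nat.pow_eq_one] at h8
      rcases h8 with h8 | h8
      · exact hℓ.one_lt.ne' h8
      · exact h4 h8
    by_contra hall
    push Not at hall
    apply h6
    have h9 : Q.1 = ⊥ := by
      rw [eq_bot_iff]
      intro z hz
      exact Subgroup.mem_bot.2 (hall z hz)
    rw [h9]; exact Subgroup.card_bot
  obtain ⟨π, hπ⟩ := monomial hζ (y * t) hyM
  have hM : Mp A B S S' ((y * t : GL (Fin n) (ZMod p)) : Matrix (Fin n) (Fin n) (ZMod p)) :=
    ht.mul hy.1
  have hM' : Mp B A S' S (((y * t)⁻¹ : GL (Fin n) (ZMod p)) : Matrix (Fin n) (Fin n) (ZMod p)) := by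
    rw [_root_.mul_inv_rev]
    exact hy.2.mul ht'
  have hback : ∀ x : Fin n → ZMod p,
      (((y * t)⁻¹ : GL (Fin n) (ZMod p)) : Matrix (Fin n) (Fin n) (ZMod p)).mulVec
        (((y * t : GL (Fin n) (ZMod p)) : Matrix (Fin n) (Fin n) (ZMod p)).mulVec x) = x := by
    intro x
    rw [Matrix.mulVec_mulVec, ← Units.val_mul, inv_mul_cancel, Units.val_one, Matrix.one_mulVec]
  refine ⟨π, ?_, ?_⟩
  · intro i k
    by_cases hik : i = k
    · subst hik
      exact ⟨fun h => absurd h (A.irrefl), fun h => absurd h (B.irrefl)⟩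
    · obtain ⟨a, ha, hia⟩ := hπ i
      obtain ⟨b, hb, hkb⟩ := hπ k
      rw [← com_single (F := ZMod p) hik one_ne_zero one_ne_zero,
        ← com_single (B := B) (fun h => hik (π.injective h)) ha hb, ← hia, ← hkb]
      constructor
      · exact hM.com _ _
      · intro h
        have := hM'.com _ _ h
        rwa [hback, hback] at this
  · intro k i
    obtain ⟨a, ha, hia⟩ := hπ i
    rw [← sup_single (F := ZMod p) (R := S k) (i := i) one_ne_zero,
      ← sup_single (R := S' k) ha, ← hia]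
    constructor
    · exact hM.sup _ _
    · intro h
      have := hM'.sup _ _ h
      rwa [hback] at this

/-- SYL -/
theorem t_SYL : S_SYL := by
  rintro I J K _ _ _ _ A B S S' ⟨L⟩
  have hcard : Fintype.card J = Fintype.card I := by
    have h1 := Matrix.trace_mul_comm L.T L.T'
    rw [L.h1, L.h2, Matrix.trace_one, Matrix.trace_one] at h1
    exact_mod_cast h1
  let a : I ≃ Fin (Fintype.card I) := Fintype.equivFin I
  let b : J ≃ Fin (Fintype.card I) := (Fintype.equivFin J).trans (finCongr hcard)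
  have L' : LinIso (A.comap a.symm) (B.comap b.symm) (fun k => a.symm ⁻¹' S k)
      (fun k => b.symm ⁻¹' S' k) :=
    { T := L.T.submatrix b.symm a.symm
      T' := L.T'.submatrix a.symm b.symm
      h1 := by rw [Matrix.submatrix_mul_equiv, L.h1, Matrix.submatrix_one_equiv]
      h2 := by rw [Matrix.submatrix_mul_equiv, L.h2, Matrix.submatrix_one_equiv]
      a1 := fun i k h c d hcd hB => L.a1 _ _ h _ _ (fun e => hcd (b.symm.injective e)) hB
      a2 := fun i k h c d hcd hB => L.a2 _ _ h _ _ (fun e => hcd (a.symm.injective e)) hB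
      s1 := fun k i hi c hc => L.s1 k _ hi _ hc
      s2 := fun k i hi c hc => L.s2 k _ hi _ hc }
  obtain ⟨π, h1, h2⟩ := syl_fin _ K _ _ _ _ L'
  refine ⟨(a.trans π).trans b.symm, ?_, ?_⟩
  · intro i k
    have := h1 (a i) (a k)
    simpa [SimpleGraph.comap_adj] using this
  · intro k i
    have := h2 k (a i)
    simpa using this

end Pool.Agent.L0h38.GI.SYL
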