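import Pool.Agent.L0h8.GI.AMA
import Pool.Agent.L0h8.GI.FAQZ
import Pool.Agent.L0h3.GI.CE2
import Pool.Agent.L0h3.GI.CNJ
import Pool.Agent.L0h3.GI.UX
import Pool.Agent.L0h84.GI.MA2
import Pool.Agent.L0h84.GI.MU
import Pool.Agent.L0h84.GI.MOB
import Pool.Agent.L0h68.GI.SBS
import Pool.Agent.L0h68.GI.SIG
import Pool.Agent.L0h64.GI.KSN
import Pool.Agent.L0h64.GI.UNC
import Pool.Agent.L0h64.GI.FAP
import Pool.Agent.L0h60.GI.BA2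
import Pool.Agent.L0h63.GI.EXC
import Pool.Agent.L0h63.GI.FRE
import Pool.Agent.L0h19.GI.UN2
import Pool.Agent.L0h72.GI.COD
import Pool.Agent.L0h48.GI.ELL
import Pool.Agent.L0h61.GI.BST
import Pool.Agent.L0h95.GI.RET
import Pool.Agent.L0h95.GI.CLQ
import Pool.Agent.L0h95.GI.HEI
import Pool.Agent.L0h83.GI.LIN
import Pool.Agent.L0h55.GI.FFA
import Pool.Agent.L0h38.GI.FIT
import Pool.Agent.L0h38.GI.SG3
import Pool.Agent.L0h38.GI.UN3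
import Pool.Agent.L0h38.GI.SYL

/-!
# Project GI2: everything together
-/

set_option autoImplicit false

namespace Pool.Agent.L0h38.GI

open Pool.Agent

theorem all_FAI : S_FAI := L0h64.GI.t_FAI L0h64.GI.t_FAP L0h8.GI.t_FAQ

theorem all_ELL : S_ELL :=
  L0h48.GI.t_ELL L0h95.GI.t_RET L0h95.GI.t_CLQ L0h8.GI.t_AMA L0h61.GI.t_BST L0h8.GI.t_FAZ

theorem all_MA2 : S_MA2 :=
  L0h84.GI.t_MA2 L0h95.GI.t_RET L0h95.GI.t_CLQ all_FAI L0h8.GI.t_FAQ all_ELL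

theorem all_MU : S_MU := L0h84.GI.t_MU L0h95.GI.t_RET all_MA2

theorem all_INT : S_INT := L0h3.GI.t_INT (L0h3.GI.t_CNJ L0h95.GI.t_RET)

theorem all_UX : S_UX :=
  L0h3.GI.t_UX L0h95.GI.t_RET L0h95.GI.t_CLQ (L0h3.GI.t_CE2 L0h8.GI.t_AMA L0h95.GI.t_RET)
    L0h8.GI.t_FAZ

theorem all_KSN : S_KSN := L0h64.GI.t_KSN (L0h63.GI.t_EXC (FIT.t_FSM FIT.t_FIT))

theorem all_SIG : S_SIG :=
  L0h68.GI.t_SIG all_MU all_INT all_UX L0h95.GI.t_CLQ L0h95.GI.t_RET all_KSN L0h84.GI.t_MOB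
    L0h8.GI.t_FAZ

theorem all_UN2 : S_UN2 :=
  L0h19.GI.t_UN2 all_SIG (L0h83.GI.t_LIN L0h95.GI.t_HEI L0h8.GI.t_FAZ) SYL.t_SYL L0h8.GI.t_FAZ

theorem all_ALG2 : S_ALG2 := L0h60.GI.t_ALG2 all_UN2 L0h72.GI.COD.t_COD L0h60.GI.t_BA2

theorem all_UNC : S_UNC :=
  L0h64.GI.t_UNC L0h68.GI.t_SBS all_ALG2 L0h63.GI.FRE.t_FRE L0h55.GI.t_FFA

theorem all_UN3 : S_UN3 :=
  UN3.t_UN3 (SG3.t_SG3 all_MU all_UX L0h95.GI.t_CLQ L0h95.GI.t_RET L0h8.GI.t_FAZ)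
    (L0h83.GI.t_LIN L0h95.GI.t_HEI L0h8.GI.t_FAZ) SYL.t_SYL L0h8.GI.t_FAZ

end Pool.Agent.L0h38.GI
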