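import Mathlib

/-!
# Graph products of groups: definitions and basic facts (project GI, MP_32d917_al)
-/

set_option autoImplicit false

namespace Pool.Agent.L0h38.GI

section gp

variable {V : Type} (Γ : SimpleGraph V) (G : V → Type) [∀ v, Group (G v)]

/-- The relations of the graph product: the groups of adjacent vertices commute. -/
def comRel : Set (Monoid.CoprodI G) :=
  {z | ∃ v w, Γ.Adj v w ∧ ∃ (x : G v) (y : G w), z = (Monoid.CoprodI.of x : Monoid.CoprodI G) *
    Monoid.CoprodI.of y * (Monoid.CoprodI.of x)⁻¹ * (Monoid.CoprodI.of y)⁻¹}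

/-- The graph product of the groups `G v` over the graph `Γ`: the quotient of the free product of the
`G v` in which the groups of adjacent vertices commute. -/
abbrev GrP : Type := Monoid.CoprodI G ⧸ Subgroup.normalClosure (comRel Γ G)

/-- the vertex groups -/
def inj (v : V) : G v →* GrP Γ G :=
  (QuotientGroup.mk' (Subgroup.normalClosure (comRel Γ G))).comp Monoid.CoprodI.of

/-- the subgroup generated by the vertex groups of the vertices in `S` -/
def P (S : Set V) : Subgroup (GrP Γ G) := ⨆ v ∈ S, (inj Γ G v).range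

variable {Γ G}

theorem inj_comm {v w : V} (h : Γ.Adj v w) (x : G v) (y : G w) :
    Commute (inj Γ G v x) (inj Γ G w y) := by
  have h1 : (Monoid.CoprodI.of x : Monoid.CoprodI G) * Monoid.CoprodI.of y *
      (Monoid.CoprodI.of x)⁻¹ * (Monoid.CoprodI.of y)⁻¹ ∈
        Subgroup.normalClosure (comRel Γ G) :=
    Subgroup.subset_normalClosure ⟨v, w, h, x, y, rfl⟩
  rw [← QuotientGroup.eq_one_iff] at h1
  have h2 : inj Γ G v x * inj Γ G w y * (inj Γ G v x)⁻¹ * (inj Γ G w y)⁻¹ = 1 := h1
  rw [mul_inv_eq_one, mul_inv_eq_iff_eq_mul] at h2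
  exact h2

theorem inj_mem {S : Set V} {v : V} (h : v ∈ S) (x : G v) : inj Γ G v x ∈ P Γ G S :=
  Subgroup.mem_iSup_of_mem v (Subgroup.mem_iSup_of_mem h ⟨x, rfl⟩)

theorem P_le {S : Set V} {H : Subgroup (GrP Γ G)} :
    P Γ G S ≤ H ↔ ∀ v ∈ S, ∀ x, inj Γ G v x ∈ H := by
  unfold P
  simp only [iSup_le_iff]
  constructor
  · intro h v hv x; exact h v hv ⟨x, rfl⟩
  · rintro h v hv _ ⟨x, rfl⟩; exact h v hv x

theorem P_mono {S T : Set V} (h : S ⊆ T) : P Γ G S ≤ P Γ G T :=
  P_le.2 fun _ hv x => inj_mem (h hv) x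

theorem P_top : P Γ G Set.univ = ⊤ := by
  rw [eq_top_iff]
  rintro x -
  induction x using QuotientGroup.induction_on with | _ x
  induction x using Monoid.CoprodI.induction_on with
  | one => exact one_mem _
  | of v x => exact inj_mem (Set.mem_univ v) x
  | mul x y hx hy => exact mul_mem hx hy

/-- universal property -/
def lift {H : Type} [Group H] (f : ∀ v, G v →* H)
    (hf : ∀ v w, Γ.Adj v w → ∀ x y, Commute (f v x) (f w y)) : GrP Γ G →* H :=
  QuotientGroup.lift _ (Monoid.CoprodI.lift f) (by
    intro z hz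
    have : Subgroup.normalClosure (comRel Γ G) ≤ (Monoid.CoprodI.lift f).ker := by
      apply Subgroup.normalClosure_le_normal
      rintro _ ⟨v, w, hvw, x, y, rfl⟩
      rw [SetLike.mem_coe, MonoidHom.mem_ker, map_mul, map_mul, map_mul, map_inv, map_inv,
        Monoid.CoprodI.lift_of, Monoid.CoprodI.lift_of, (hf v w hvw x y).eq]
      group
    exact this hz)

@[simp] theorem lift_inj {H : Type} [Group H] (f : ∀ v, G v →* H)
    (hf : ∀ v w, Γ.Adj v w → ∀ x y, Commute (f v x) (f w y)) (v : V) (x : G v) :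
    lift f hf (inj Γ G v x) = f v x := by
  show Monoid.CoprodI.lift f (Monoid.CoprodI.of x) = f v x
  exact Monoid.CoprodI.lift_of f x

theorem gp_ext {H : Type} [Group H] {F F' : GrP Γ G →* H}
    (h : ∀ v x, F (inj Γ G v x) = F' (inj Γ G v x)) : F = F' := by
  apply QuotientGroup.monoidHom_ext
  apply Monoid.CoprodI.ext_hom
  intro v
  ext x
  exact h v x

open Classical in
/-- the retraction onto `P S` which kills the vertex groups outside `S` -/
noncomputable def ret (S : Set V) : GrP Γ G →* GrP Γ G :=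
  lift (fun v => if v ∈ S then inj Γ G v else 1) (by
    intro v w h x y
    split_ifs
    · exact inj_comm h x y
    · exact Commute.one_right _
    · exact Commute.one_left _
    · exact Commute.one_left _)

theorem ret_inj_mem {S : Set V} {v : V} (h : v ∈ S) (x : G v) :
    ret S (inj Γ G v x) = inj Γ G v x := by
  unfold ret
  rw [lift_inj, if_pos h]

theorem ret_inj_not {S : Set V} {v : V} (h : v ∉ S) (x : G v) :
    ret S (inj Γ G v x) = 1 := by
  unfold ret
  rw [lift_inj, if_neg h]; rfl

open Classical in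
/-- the map to the direct product of the vertex groups -/
noncomputable def toPi : GrP Γ G →* (∀ v, G v) :=
  lift (fun v => MonoidHom.mulSingle G v) (by
    intro v w h x y
    have hvw : v ≠ w := h.ne
    exact Pi.mulSingle_commute hvw x y)

open Classical in
theorem toPi_inj (v : V) (x : G v) : toPi (inj Γ G v x) = Pi.mulSingle v x := by
  exact lift_inj (Γ := Γ) (fun v => MonoidHom.mulSingle G v) _ v x

theorem toPi_inj_same (v : V) (x : G v) : toPi (inj Γ G v x) v = x := by
  classical
  rw [toPi_inj, Pi.mulSingle_eq_same]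

theorem toPi_inj_ne {v w : V} (h : w ≠ v) (x : G v) : toPi (inj Γ G v x) w = 1 := by
  classical
  rw [toPi_inj, Pi.mulSingle_eq_of_ne h]

end gp

/-- Serre's property FA: every action on a tree without inversions has a fixed vertex. -/
def FA (X : Type) [Group X] : Prop :=
  ∀ (V : Type) (T : SimpleGraph V) [MulAction X V], T.IsTree →
    (∀ (g : X) (v w : V), T.Adj v w → T.Adj (g • v) (g • w)) →
    (∀ (g : X) (v w : V), T.Adj v w → ¬ (g • v = w ∧ g • w = v)) →
    ∃ v : V, ∀ g : X, g • v = v

/-- Trivial centre. -/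
def Cless (X : Type) [Group X] : Prop := ∀ z : X, (∀ g : X, z * g = g * z) → z = 1

/-- Nontrivial and not a direct product of two nontrivial groups. -/
def Indec (X : Type) [Group X] : Prop :=
  (∃ g : X, g ≠ 1) ∧ ∀ (A B : Type) [Group A] [Group B], Nonempty (X ≃* A × B) →
    (∀ a : A, a = 1) ∨ (∀ b : B, b = 1)

/-- infinite cyclic -/
def IsZ (X : Type) [Group X] : Prop := Nonempty (X ≃* Multiplicative ℤ)

/-- the vertex groups which we allow -/
def Ok (X : Type) [Group X] : Prop := (FA X ∧ Cless X ∧ Indec X) ∨ IsZ X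

end Pool.Agent.L0h38.GI
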