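import Pool.Agent.L0h38.GI.ALG3

/-!
# Projects GI2, GI3: final forms
-/

set_option autoImplicit false

namespace Pool.Agent.L0h38.GI

open Pool.Agent Pool.Agent.Q223.IS Pool.Agent.Q32.DP

theorem all_ALG3 : S_ALG3 :=
  ALG3.t_ALG3 all_UN3 L0h72.GI.COD.t_COD L0h60.GI.t_BA2 L0h61.GI.t_REN L0h6.GI.t_RED
    L0h6.GI.t_PRD L0h95.GI.t_CLQ L0h8.GI.t_FAZ

/-- a vertex group is a graph product -/
theorem one_vertex {C : Pres → Prop} {p : Pres} (h : C p) : GPC C p := by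
  obtain ⟨v⟩ := ALG3.top_iso L0h95.GI.t_CLQ (fun _ : Fin 1 => PG p)
  exact ⟨1, ⊤, fun _ => p, fun _ => Or.inl h,
    ⟨(MulEquiv.piUnique (fun _ : Fin 1 => PG p)).symm.trans v⟩⟩

theorem alg2_iff (C : Pres → Prop) (hC : REPred C)
    (h : ∀ k, C k → FA (PG k) ∧ FinC (PG k) ∧ Indec (PG k)) :
    Solvable (GPC C) ↔ Solvable C := by
  constructor
  · rintro ⟨f, hf, hf2⟩
    exact ⟨f, hf, fun a b ha hb => hf2 a b (one_vertex ha) (one_vertex hb)⟩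
  · exact all_ALG2 C hC h

end Pool.Agent.L0h38.GI
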