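import Pool.Agent.L0h38.GI.Stm

/-!
# Project GI, module SYL: part 1 (diagonal matrices contain Sylow subgroups)
-/

set_option autoImplicit false

namespace Pool.Agent.L0h38.GI.SYL

open Matrix
open scoped Pointwise

section num

theorem fac_pow_sub (p ℓ : ℕ) (hp : p.Prime) (hℓ : ℓ.Prime) (h : p ≡ 1 [MOD ℓ]) (k : ℕ)
    (hk : 1 ≤ k) (hkl : k < ℓ) : (p ^ k - 1).factorization ℓ = (p - 1).factorization ℓ := by
  have h1 : p ^ k - 1 = (p - 1) * ∑ j ∈ Finset.range k, p ^ j := by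
    have h2 := mul_geom_sum (p : ℤ) k
    have h3 : 1 ≤ p := hp.one_lt.le
    have h4 : 1 ≤ p ^ k := Nat.one_le_pow _ _ hp.pos
    zify [h3, h4]
    exact h2.symm
  have h5 : ¬ ℓ ∣ ∑ j ∈ Finset.range k, p ^ j := by
    intro hd
    rw [← CharP.cast_eq_zero_iff (ZMod ℓ) ℓ] at hd
    push_cast at hd
    have h6 : (p : ZMod ℓ) = 1 := by
      have := (ZMod.natCast_eq_natCast_iff p 1 ℓ).2 h
      simpa using this
    rw [h6] at hd
    simp only [one_pow, Finset.sum_const, Finset.card_range, nsmul_eq_mul, mul_one] at hd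
    rw [CharP.cast_eq_zero_iff (ZMod ℓ) ℓ] at hd
    exact absurd (Nat.le_of_dvd hk hd) (not_le.2 hkl)
  have h7 : p - 1 ≠ 0 := by have := hp.two_le; omega
  have h8 : ∑ j ∈ Finset.range k, p ^ j ≠ 0 := by
    intro h0; rw [h0] at h5; exact h5 (dvd_zero _)
  rw [h1, Nat.factorization_mul h7 h8, Finsupp.add_apply,
    Nat.factorization_eq_zero_of_not_dvd h5, add_zero]

theorem fac_GL (p ℓ n : ℕ) (hp : p.Prime) (hℓ : ℓ.Prime) (h : p ≡ 1 [MOD ℓ]) (hn : n < ℓ) :
    (∏ i : Fin n, (p ^ n - p ^ (i : ℕ))).factorization ℓ = n * (p - 1).factorization ℓ := by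
  have hne : ℓ ≠ p := by
    rintro rfl
    have h2 : ℓ ≡ 0 [MOD ℓ] := by simp [Nat.ModEq]
    have h3 := h.symm.trans h2
    have := (Nat.modEq_zero_iff_dvd.1 h3)
    exact hℓ.one_lt.ne' (Nat.dvd_one.1 this)
  have hfac : ∀ i : Fin n, p ^ n - p ^ (i : ℕ) = p ^ (i : ℕ) * (p ^ (n - i) - 1) := by
    intro i
    rw [Nat.mul_sub, mul_one, ← pow_add, Nat.add_sub_of_le i.2.le]
  have hpos : ∀ i : Fin n, p ^ (n - i) - 1 ≠ 0 := by
    intro i
    have h1 : n - i ≠ 0 := by omega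
    have h2 := Nat.one_lt_pow h1 hp.one_lt
    omega
  have hpos2 : ∀ i : Fin n, p ^ n - p ^ (i : ℕ) ≠ 0 := by
    intro i
    rw [hfac]
    exact mul_ne_zero (pow_ne_zero _ hp.ne_zero) (hpos i)
  rw [Nat.factorization_prod (fun i _ => hpos2 i), Finsupp.finsetSum_apply]
  have hterm : ∀ i : Fin n, (p ^ n - p ^ (i : ℕ)).factorization ℓ = (p - 1).factorization ℓ := by
    intro i
    rw [hfac, Nat.factorization_mul (pow_ne_zero _ hp.ne_zero) (hpos i), Finsupp.add_apply,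
      fac_pow_sub p ℓ hp hℓ h (n - i) (by omega) (by omega)]
    rw [Nat.factorization_pow, Finsupp.smul_apply, hp.factorization, Finsupp.single_apply,
      if_neg hne.symm]
    simp
  simp only [hterm, Finset.sum_const, Finset.card_univ, Fintype.card_fin, smul_eq_mul]

end num

section dia

variable {n : ℕ} {F : Type} [Field F]

/-- diagonal matrices -/
noncomputable def dg : (Fin n → Fˣ) →* GL (Fin n) F :=
  (Units.map (Matrix.diagonalRingHom (Fin n) F).toMonoidHom).comp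
    (MulEquiv.piUnits (ι := Fin n) (M := fun _ => F)).symm.toMonoidHom

theorem dg_val (d : Fin n → Fˣ) : (dg d : Matrix (Fin n) (Fin n) F) =
    Matrix.diagonal (fun i => (d i : F)) := rfl

theorem dg_inj : Function.Injective (dg (n := n) (F := F)) := by
  intro d d' h
  have h1 := congrArg (fun g : GL (Fin n) F => (g : Matrix (Fin n) (Fin n) F)) h
  simp only [dg_val] at h1
  have h2 := Matrix.diagonal_injective h1
  funext i
  exact Units.ext (congrFun h2 i)

/-- diagonal matrices with entries in `Q` -/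
noncomputable def DQ (n : ℕ) (Q : Subgroup Fˣ) : Subgroup (GL (Fin n) F) :=
  (Subgroup.pi Set.univ (fun _ : Fin n => Q)).map dg

theorem mem_DQ {Q : Subgroup Fˣ} {g : GL (Fin n) F} :
    g ∈ DQ n Q ↔ ∃ d : Fin n → Fˣ, (∀ i, d i ∈ Q) ∧ dg d = g := by
  unfold DQ
  rw [Subgroup.mem_map]
  constructor
  · rintro ⟨d, hd, rfl⟩
    exact ⟨d, fun i => (Subgroup.mem_pi _).1 hd i (Set.mem_univ i), rfl⟩
  · rintro ⟨d, hd, rfl⟩
    exact ⟨d, (Subgroup.mem_pi _).2 (fun i _ => hd i), rfl⟩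

theorem card_DQ (Q : Subgroup Fˣ) : Nat.card (DQ n Q) = (Nat.card Q) ^ n := by
  have h1 : Nat.card (DQ n Q) = Nat.card (Fin n → Q) := by
    refine Nat.card_congr ?_
    refine (Equiv.ofBijective (fun d : Fin n → Q =>
      (⟨dg (fun i => (d i : Fˣ)), mem_DQ.2 ⟨_, fun i => (d i).2, rfl⟩⟩ : DQ n Q)) ?_).symm
    constructor
    · intro d d' h
      have h2 := dg_inj (congrArg Subtype.val h)
      funext i
      exact Subtype.ext (congrFun h2 i)
    · rintro ⟨g, hg⟩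
      obtain ⟨d, hd, rfl⟩ := mem_DQ.1 hg
      exact ⟨fun i => ⟨d i, hd i⟩, rfl⟩
  rw [h1, Nat.card_fun]
  simp

end dia

/-- two subgroups of `GL_n(F_p)` which are conjugate to the group of diagonal matrices of `ℓ`-power
order are conjugate in every subgroup which contains both -/
theorem conj_in (p ℓ n : ℕ) [Fact p.Prime] [Fact ℓ.Prime] (h : p ≡ 1 [MOD ℓ]) (hn : n < ℓ)
    (Q : Sylow ℓ (ZMod p)ˣ) (Y : Subgroup (GL (Fin n) (ZMod p))) (t : GL (Fin n) (ZMod p))
    (h1 : DQ n Q.1 ≤ Y) (h2 : (DQ n Q.1).map (MulAut.conj t).toMonoidHom ≤ Y) :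
    ∃ y ∈ Y, ∀ g, g ∈ DQ n Q.1 ↔ (y * t) * g * (y * t)⁻¹ ∈ DQ n Q.1 := by
  have hp : p.Prime := Fact.out
  have hℓ : ℓ.Prime := Fact.out
  have : Finite (GL (Fin n) (ZMod p)) := inferInstance
  set v := (p - 1).factorization ℓ with hv
  have hQ : Nat.card Q.1 = ℓ ^ v := by
    have := Q.card_eq_multiplicity
    rw [Nat.card_eq_fintype_card (α := (ZMod p)ˣ), ZMod.card_units] at this
    exact this
  have hD : Nat.card (DQ n Q.1) = ℓ ^ (n * v) := by
    rw [card_DQ, hQ, ← pow_mul, mul_comm]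
  have hD2 : Nat.card ((DQ n Q.1).map (MulAut.conj t).toMonoidHom) = ℓ ^ (n * v) := by
    rw [Subgroup.card_map_of_injective]
    · exact hD
    · exact (MulAut.conj t).injective
  have hG : (Nat.card (GL (Fin n) (ZMod p))).factorization ℓ = n * v := by
    rw [Matrix.card_GL_field]
    simp only [ZMod.card]
    exact fac_GL p ℓ n hp hℓ h hn
  have hY : (Nat.card Y).factorization ℓ = n * v := by
    apply le_antisymm
    · rw [← hG]
      exact (Nat.factorization_le_iff_dvd Nat.card_pos.ne' Nat.card_pos.ne').2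
        (Subgroup.card_subgroup_dvd_card Y) ℓ
    · have h3 : ℓ ^ (n * v) ∣ Nat.card Y := by
        rw [← hD]
        exact Subgroup.card_dvd_of_le h1
      exact (hℓ.pow_dvd_iff_le_factorization Nat.card_pos.ne').1 h3
  have c1 : Nat.card ((DQ n Q.1).subgroupOf Y) = ℓ ^ (Nat.card Y).factorization ℓ := by
    rw [hY, ← hD]
    exact Nat.card_congr (Subgroup.subgroupOfEquivOfLe h1).toEquiv
  have c2 : Nat.card (((DQ n Q.1).map (MulAut.conj t).toMonoidHom).subgroupOf Y) =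
      ℓ ^ (Nat.card Y).factorization ℓ := by
    rw [hY, ← hD2]
    exact Nat.card_congr (Subgroup.subgroupOfEquivOfLe h2).toEquiv
  obtain ⟨y, hy⟩ := MulAction.exists_smul_eq Y (Sylow.ofCard _ c2) (Sylow.ofCard _ c1)
  refine ⟨y.1, y.2, ?_⟩
  have key : ∀ g : Y, g ∈ ((DQ n Q.1).map (MulAut.conj t).toMonoidHom).subgroupOf Y ↔
      y * g * y⁻¹ ∈ (DQ n Q.1).subgroupOf Y := by
    intro g
    have h5 : (y • (Sylow.ofCard _ c2) : Sylow ℓ Y).1 = (DQ n Q.1).subgroupOf Y := by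
      rw [hy]; rfl
    have h6 : (y • (Sylow.ofCard _ c2) : Sylow ℓ Y).1 =
        MulAut.conj y • (((DQ n Q.1).map (MulAut.conj t).toMonoidHom).subgroupOf Y) := rfl
    rw [← h5, h6]
    constructor
    · intro hg
      exact Subgroup.smul_mem_pointwise_smul g (MulAut.conj y) _ hg
    · intro hg
      rw [Subgroup.mem_pointwise_smul_iff_inv_smul_mem] at hg
      have h7 : (MulAut.conj y)⁻¹ • (y * g * y⁻¹) = g := by
        rw [← map_inv]
        show y⁻¹ * (y * g * y⁻¹) * (y⁻¹)⁻¹ = g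
        group
      rwa [h7] at hg
  intro g
  constructor
  · intro hg
    have h8 : t * g * t⁻¹ ∈ (DQ n Q.1).map (MulAut.conj t).toMonoidHom := ⟨g, hg, rfl⟩
    have h9 := (key ⟨t * g * t⁻¹, h2 h8⟩).1 h8
    have h10 : (y : GL (Fin n) (ZMod p)) * (t * g * t⁻¹) * (y : GL (Fin n) (ZMod p))⁻¹ ∈
      DQ n Q.1 := h9
    have h11 : y.1 * t * g * (y.1 * t)⁻¹ = y.1 * (t * g * t⁻¹) * y.1⁻¹ := by group
    rw [h11]; exact h10
  · intro hg
    have h11 : y.1 * t * g * (y.1 * t)⁻¹ = y.1 * (t * g * t⁻¹) * y.1⁻¹ := by group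
    rw [h11] at hg
    have hgY : t * g * t⁻¹ ∈ Y := by
      have h12 := mul_mem (mul_mem (inv_mem y.2) (h1 hg)) y.2
      have h13 : y.1⁻¹ * (y.1 * (t * g * t⁻¹) * y.1⁻¹) * y.1 = t * g * t⁻¹ := by group
      rwa [h13] at h12
    have h9 := (key ⟨t * g * t⁻¹, hgY⟩).2 hg
    obtain ⟨g', hg', he⟩ : t * g * t⁻¹ ∈ (DQ n Q.1).map (MulAut.conj t).toMonoidHom := h9
    have h14 : t * g' * t⁻¹ = t * g * t⁻¹ := he
    have h15 : g' = g := by
      have := congrArg (fun z => t⁻¹ * z * t) h14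
      simpa [mul_assoc] using this
    rw [← h15]; exact hg'

end Pool.Agent.L0h38.GI.SYL
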