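import Pool.Agent.L0h38.GI.Defs
import Pool.Agent.L0h29.AL.Defs

/-!
# Project GI: statements of the algebraic modules
-/

set_option autoImplicit false

namespace Pool.Agent.L0h38.GI

open Pool.Agent.L0h29.AL

/-- RET: retractions. -/
def S_RET : Prop := ∀ (V : Type) (Γ : SimpleGraph V) (G : V → Type) [∀ v, Group (G v)] (S T : Set V),
  (∀ x ∈ P Γ G S, ret S x = x) ∧ (∀ x : GrP Γ G, ret S x ∈ P Γ G S) ∧
  (∀ x ∈ P Γ G T, ret S x ∈ P Γ G (S ∩ T)) ∧ P Γ G S ⊓ P Γ G T = P Γ G (S ∩ T) ∧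
  (∀ v, Function.Injective (inj Γ G v)) ∧ (∀ x ∈ P Γ G S, ∀ v ∉ S, toPi x v = 1)

/-- CLQ: cliques generate direct products. -/
def S_CLQ : Prop := ∀ (V : Type) (Γ : SimpleGraph V) (G : V → Type) [∀ v, Group (G v)] (K : Set V),
  Γ.IsClique K → K.Finite →
  (∀ x ∈ P Γ G K, ∀ y ∈ P Γ G K, toPi x = toPi y → x = y) ∧
  ∃ κ : (∀ v : K, G v) →* GrP Γ G, Function.Injective κ ∧ κ.range = P Γ G K ∧
    (∀ (z : ∀ v : K, G v) (v : K), toPi (κ z) v = z v) ∧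
    ∀ (z : ∀ v : K, G v) (v : K), (∀ v', v' ≠ v → z v' = 1) → κ z = inj Γ G v (z v)

/-- AMA: a graph product is an amalgam. -/
def S_AMA : Prop := ∀ (V : Type) (Γ : SimpleGraph V) (G : V → Type) [∀ v, Group (G v)] (v : V),
  ∃ S : Amal (GrP Γ G), S.A true = P Γ G (insert v (Γ.neighborSet v)) ∧
    S.A false = P Γ G {v}ᶜ ∧ S.C = P Γ G (Γ.neighborSet v)

/-- BST: groups with property FA in amalgams. -/
def S_BST : Prop := ∀ (G : Type) [Group G] (S : Amal G) (X : Type) [Group X], FA X →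
  ∀ φ : X →* G, ∃ (g : G) (τ : Bool), ∀ x, g⁻¹ * φ x * g ∈ S.A τ

/-- FAQ: quotients. -/
def S_FAQ : Prop := ∀ (X Y : Type) [Group X] [Group Y], FA X → ∀ f : X →* Y,
  Function.Surjective f → FA Y

/-- FAZ: groups with property FA have no infinite cyclic quotient. -/
def S_FAZ : Prop := ∀ (X : Type) [Group X], FA X → ∀ (f : X →* Multiplicative ℤ) (x : X), f x = 1

/-- FAP: products. -/
def S_FAP : Prop := ∀ (X Y : Type) [Group X] [Group Y], FA X → FA Y → FA (X × Y)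

/-- FAI: finite products. -/
def S_FAI : Prop := ∀ (ι : Type) [Finite ι] (G : ι → Type) [∀ i, Group (G i)],
  (∀ i, FA (G i)) → FA (∀ i, G i)

/-- ELL: subgroups with property FA lie in conjugates of cliques. -/
def S_ELL : Prop := ∀ (V : Type) [Finite V] (Γ : SimpleGraph V) (G : V → Type) [∀ v, Group (G v)],
  (∀ v, FA (G v) ∨ IsZ (G v)) → ∀ (X : Type) [Group X], FA X → ∀ φ : X →* GrP Γ G,
  ∃ (g : GrP Γ G) (K : Set V), Γ.IsClique K ∧ (∀ v ∈ K, FA (G v)) ∧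
    ∀ x, g⁻¹ * φ x * g ∈ P Γ G K

/-- CEN: centralisers of vertex groups. -/
def S_CEN : Prop := ∀ (V : Type) (Γ : SimpleGraph V) (G : V → Type) [∀ v, Group (G v)] (v : V),
  Cless (G v) → (∃ x : G v, x ≠ 1) → ∀ y : GrP Γ G, (∀ x, Commute y (inj Γ G v x)) →
  y ∈ P Γ G (Γ.neighborSet v)

/-- KRS: the decomposition of a group into centreless indecomposable factors is unique (as a set of
subgroups). -/
def S_KRS : Prop := ∀ (ι κ : Type) [Finite ι] [Finite κ] (A : ι → Type) (B : κ → Type)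
  [∀ i, Group (A i)] [∀ j, Group (B j)], (∀ i, Cless (A i)) → (∀ i, Indec (A i)) →
  (∀ j, Cless (B j)) → (∀ j, Indec (B j)) → ∀ (e : (∀ i, A i) ≃* (∀ j, B j)) (i : ι),
  ∃ j : κ, ∀ z : ∀ i, A i, (∀ i', i' ≠ i → z i' = 1) ↔ (∀ j', j' ≠ j → e z j' = 1)

/-- maximal among the cliques of vertices whose groups have property FA -/
def MaxF {V : Type} (Γ : SimpleGraph V) (G : V → Type) [∀ v, Group (G v)] (K : Set V) : Prop :=
  (Γ.IsClique K ∧ ∀ v ∈ K, FA (G v)) ∧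
    ∀ K', Γ.IsClique K' → (∀ v ∈ K', FA (G v)) → K ⊆ K' → K' = K

/-- MAX: an isomorphism maps maximal FA cliques to conjugates of maximal FA cliques. -/
def S_MAX : Prop := ∀ (V W : Type) [Finite V] [Finite W] (Γ : SimpleGraph V) (Δ : SimpleGraph W)
  (G : V → Type) (H : W → Type) [∀ v, Group (G v)] [∀ w, Group (H w)], (∀ v, Ok (G v)) →
  (∀ w, Ok (H w)) → ∀ (e : GrP Γ G ≃* GrP Δ H) (K : Set V), MaxF Γ G K →
  ∃ K', MaxF Δ H K' ∧ ∃ g, ∀ y, y ∈ P Γ G K ↔ g⁻¹ * e y * g ∈ P Δ H K'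

/-- the conclusion of VTX -/
def Vtx {V W : Type} {Γ : SimpleGraph V} {Δ : SimpleGraph W}
    {G : V → Type} {H : W → Type} [∀ v, Group (G v)] [∀ w, Group (H w)] (e : GrP Γ G ≃* GrP Δ H)
    (s : V → W) : Prop :=
  (∀ v, FA (G v) → FA (H (s v)) ∧ ∃ g, ∀ y, y ∈ (inj Γ G v).range ↔
    g⁻¹ * e y * g ∈ (inj Δ H (s v)).range) ∧
  ∀ v v', FA (G v) → FA (G v') → Γ.Adj v v' → Δ.Adj (s v) (s v')

/-- VTX: an isomorphism maps the FA vertex groups to conjugates of the FA vertex groups. -/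
def S_VTX : Prop := ∀ (V W : Type) [Finite V] [Finite W] (Γ : SimpleGraph V) (Δ : SimpleGraph W)
  (G : V → Type) (H : W → Type) [∀ v, Group (G v)] [∀ w, Group (H w)], (∀ v, Ok (G v)) →
  (∀ w, Ok (H w)) → ∀ (e : GrP Γ G ≃* GrP Δ H), ∃ s : V → W, Vtx e s

/-- HEI: exponents of commuting elements. -/
def S_HEI : Prop := ∀ (V : Type) (Γ : SimpleGraph V) (G : V → Type) [∀ v, Group (G v)] (w w' : V),
  w ≠ w' → ¬ Γ.Adj w w' → ∀ (f : G w →* Multiplicative ℤ) (f' : G w' →* Multiplicative ℤ)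
  (a b : GrP Γ G), Commute a b →
  (f (toPi a w)).toAdd * (f' (toPi b w')).toAdd = (f (toPi b w)).toAdd * (f' (toPi a w')).toAdd

/-- the hypotheses of SYL -/
structure LinIso {I J K : Type} [Fintype I] [Fintype J] [DecidableEq I] [DecidableEq J]
    (A : SimpleGraph I) (B : SimpleGraph J) (S : K → Set I) (S' : K → Set J) : Type where
  T : Matrix J I ℤ
  T' : Matrix I J ℤ
  h1 : T * T' = 1
  h2 : T' * T = 1
  a1 : ∀ i k, A.Adj i k → ∀ c d, c ≠ d → ¬ B.Adj c d → T c i * T d k = T d i * T c k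
  a2 : ∀ i k, B.Adj i k → ∀ c d, c ≠ d → ¬ A.Adj c d → T' c i * T' d k = T' d i * T' c k
  s1 : ∀ k, ∀ i ∈ S k, ∀ c ∉ S' k, T c i = 0
  s2 : ∀ k, ∀ i ∈ S' k, ∀ c ∉ S k, T' c i = 0

/-- SYL: linear isomorphisms give isomorphisms. -/
def S_SYL : Prop := ∀ (I J K : Type) [Fintype I] [Fintype J] [DecidableEq I] [DecidableEq J]
  (A : SimpleGraph I) (B : SimpleGraph J) (S : K → Set I) (S' : K → Set J),
  Nonempty (LinIso A B S S') →
  ∃ π : I ≃ J, (∀ i k, A.Adj i k ↔ B.Adj (π i) (π k)) ∧ ∀ k i, i ∈ S k ↔ π i ∈ S' k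

/-- the infinite cyclic vertices -/
abbrev VZ {V : Type} (G : V → Type) [∀ v, Group (G v)] : Type := {v : V // IsZ (G v)}

/-- ZMT: the linear isomorphism. -/
def S_ZMT : Prop := ∀ (V W : Type) [Finite V] [Finite W] (Γ : SimpleGraph V) (Δ : SimpleGraph W)
  (G : V → Type) (H : W → Type) [∀ v, Group (G v)] [∀ w, Group (H w)] [Fintype (VZ G)]
  [Fintype (VZ H)] [DecidableEq (VZ G)] [DecidableEq (VZ H)], (∀ v, Ok (G v)) →
  (∀ w, Ok (H w)) → ∀ (e : GrP Γ G ≃* GrP Δ H) (s : V → W), Vtx e s →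
  Nonempty (LinIso (K := {v : V // FA (G v)}) (Γ.comap (Subtype.val : VZ G → V))
    (Δ.comap (Subtype.val : VZ H → W)) (fun k => {i | Γ.Adj k.1 i.1})
    (fun k => {j | Δ.Adj (s k.1) j.1}))

/-- UNQ: the labelled graph is determined by the group. -/
def S_UNQ : Prop := ∀ (V W : Type) [Finite V] [Finite W] (Γ : SimpleGraph V) (Δ : SimpleGraph W)
  (G : V → Type) (H : W → Type) [∀ v, Group (G v)] [∀ w, Group (H w)], (∀ v, Ok (G v)) →
  (∀ w, Ok (H w)) → Nonempty (GrP Γ G ≃* GrP Δ H) →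
  ∃ σ : Γ ≃g Δ, ∀ v, Nonempty (G v ≃* H (σ v))

end Pool.Agent.L0h38.GI
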