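import Pool.Agent.L0h38.GI.Stm2
import Pool.Agent.L0h38.GI.Stm3

/-!
# Project GI2: statements of the algorithmic modules
-/

set_option autoImplicit false

namespace Pool.Agent.L0h38.GI

open Pool.Agent.Q223.IS Pool.Agent.Q32.DP

/-- BA2: non-isomorphism of the labelled graphs is recursively enumerable. -/
def S_BA2 : Prop := ∀ (C : Pres → Prop) (f : Pres × Pres →. Bool), REPred C → Partrec f →
  (∀ k, C k → ¬ IsZ (PG k)) →
  (∀ a b, C a → C b →
    (Nonempty (PG a ≃* PG b) → true ∈ f (a, b)) ∧ (¬ Nonempty (PG a ≃* PG b) → false ∈ f (a, b))) →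
  ∃ Q : (List Pres × List (ℕ × ℕ)) × (List Pres × List (ℕ × ℕ)) → Prop, REPred Q ∧
    ∀ L E L' E', (∀ k ∈ L, C k ∨ IsZ (PG k)) → (∀ k ∈ L', C k ∨ IsZ (PG k)) →
    (Q ((L, E), (L', E')) ↔ ¬ ∃ σ : gr E L.length ≃g gr E' L'.length,
      ∀ i, Nonempty (PG (L.get i) ≃* PG (L'.get (σ i))))

/-- AL2: the algorithm. -/
def S_ALG2 : Prop := ∀ C : Pres → Prop, REPred C →
  (∀ k, C k → FA (PG k) ∧ FinC (PG k) ∧ Indec (PG k)) → Solvable C → Solvable (GPC C)

/-- presentations of finite directly indecomposable groups -/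
def FinInd (k : Pres) : Prop := Finite (PG k) ∧ Indec (PG k)

/-- FRE: they are recursively enumerable and the isomorphism problem is solvable for them. -/
def S_FRE : Prop := REPred FinInd ∧ Solvable FinInd

/-- The presentations of the graph products (over finite graphs) of finite groups and (finitely
generated) abelian groups. -/
def GPFA (p : Pres) : Prop :=
  ∃ (n : ℕ) (Γ : SimpleGraph (Fin n)) (k : Fin n → Pres),
    (∀ i, Finite (PG (k i)) ∨ ∀ x y : PG (k i), x * y = y * x) ∧
    Nonempty (PG p ≃* GrP Γ (fun i => PG (k i)))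

/-- UNC: the unconditional result. -/
def S_UNC : Prop := Solvable GPFA

end Pool.Agent.L0h38.GI
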