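import Pool.Agent.L0h38.GI.Stm4

/-!
# Project GI3: statements. Arbitrary vertex groups with property FA, and infinite cyclic ones
-/

set_option autoImplicit false

namespace Pool.Agent.L0h38.GI

open Pool.Agent.Q223.IS Pool.Agent.Q32.DP

/-- adjacent twins: adjacent vertices with the same star -/
def Twin {V : Type} (Γ : SimpleGraph V) (v w : V) : Prop :=
  Γ.Adj v w ∧ ∀ u, u ≠ v → u ≠ w → (Γ.Adj v u ↔ Γ.Adj w u)

/-- no adjacent twins outside the infinite cyclic vertices -/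
def NoTw {V : Type} (Γ : SimpleGraph V) (G : V → Type) [∀ v, Group (G v)] : Prop :=
  ∀ v w, Twin Γ v w → IsZ (G v) ∨ IsZ (G w)

/-- SG3: the bijection of the FA vertices. -/
def S_SG3 : Prop := ∀ (V W : Type) [Finite V] [Finite W] (Γ : SimpleGraph V) (Δ : SimpleGraph W)
  (G : V → Type) (H : W → Type) [∀ v, Group (G v)] [∀ w, Group (H w)] [Fintype (VZ G)]
  [Fintype (VZ H)] [DecidableEq (VZ G)] [DecidableEq (VZ H)], (∀ v, Ok3 (G v)) →
  (∀ w, Ok3 (H w)) → NoTw Γ G → NoTw Δ H → ∀ (e : GrP Γ G ≃* GrP Δ H)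
  (c : ∀ i : VZ G, G i.1 ≃* Multiplicative ℤ) (d : ∀ j : VZ H, H j.1 ≃* Multiplicative ℤ)
  (L : Lin e c d), ∃ σ : {v // FA (G v)} ≃ {w // FA (H w)},
    (∀ v, Nonempty (G v.1 ≃* H (σ v).1)) ∧
    (∀ v v', Γ.Adj v.1 v'.1 ↔ Δ.Adj (σ v).1 (σ v').1) ∧
    ∀ v, ∀ z : VZ G → ℤ, (∀ i, z i ≠ 0 → Γ.Adj v.1 i.1) ↔
      (∀ j, L.T.mulVec z j ≠ 0 → Δ.Adj (σ v).1 j.1)

/-- UN3: the labelled graph is determined by the group. -/
def S_UN3 : Prop := ∀ (V W : Type) [Finite V] [Finite W] (Γ : SimpleGraph V) (Δ : SimpleGraph W)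
  (G : V → Type) (H : W → Type) [∀ v, Group (G v)] [∀ w, Group (H w)], (∀ v, Ok3 (G v)) →
  (∀ w, Ok3 (H w)) → NoTw Γ G → NoTw Δ H → Nonempty (GrP Γ G ≃* GrP Δ H) →
  ∃ σ : Γ ≃g Δ, ∀ v, Nonempty (G v ≃* H (σ v))

/-- MRG: merging of adjacent twins. -/
def S_MRG : Prop := ∀ (n : ℕ) (Γ : SimpleGraph (Fin n)) (G : Fin n → Type) [∀ v, Group (G v)]
  (A : Fin n → Prop), ∃ (m : ℕ) (Δ : SimpleGraph (Fin m)) (r : Fin n → Fin m),
    Function.Surjective r ∧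
    (∀ v w, r v = r w ↔ v = w ∨ (A v ∧ A w ∧ Twin Γ v w)) ∧
    (∀ v w, r v ≠ r w → (Δ.Adj (r v) (r w) ↔ Γ.Adj v w)) ∧
    (∀ v w, A v → A w → ¬ Twin Δ (r v) (r w)) ∧
    Nonempty (GrP Γ G ≃* GrP Δ (fun j => ∀ i : {v // r v = j}, G i.1))

/-- PRD: direct products. -/
def S_PRD : Prop := ∀ C : Pres → Prop, (∀ k, C k → FA (PG k) ∧ ∃ x : PG k, x ≠ 1) →
  (∀ p, Prods C C p → FA (PG p) ∧ ∃ x : PG p, x ≠ 1) ∧
  (∀ (ι : Type) [Finite ι] [Nonempty ι] (k : ι → Pres), (∀ i, C (k i)) →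
    ∃ p, Prods C C p ∧ Nonempty (PG p ≃* ∀ i, PG (k i))) ∧
  ∀ p, Prods C C p → ∃ (n : ℕ) (k : Fin n → Pres), (∀ i, C (k i)) ∧
    Nonempty (PG p ≃* ∀ i, PG (k i))

/-- the coded labelled graphs without adjacent twins -/
def NT (C : Pres → Prop) (x : List Pres × List (ℕ × ℕ)) : Prop :=
  (∀ k ∈ x.1, Prods C C k ∨ IsZ (PG k)) ∧
    NoTw (gr x.2 x.1.length) (fun i : Fin x.1.length => PG (x.1.get i))

/-- RED: every graph product of groups in `C` and infinite cyclic groups is the group of a coded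
labelled graph without adjacent twins. -/
def S_RED : Prop := ∀ C : Pres → Prop, (∀ k, C k → FA (PG k) ∧ ∃ x : PG k, x ≠ 1) →
  ∀ p, GPC C p → ∃ x : List Pres × List (ℕ × ℕ), NT C x ∧
    Nonempty (PG p ≃* GrP (gr x.2 x.1.length) (fun i : Fin x.1.length => PG (x.1.get i)))

/-- REN: recursive enumerability. -/
def S_REN : Prop := ∀ C : Pres → Prop, REPred C → REPred (Prods C C) ∧ REPred (NT C)

/-- AL3: the isomorphism problem for graph products is as hard as for direct products. -/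
def S_ALG3 : Prop := ∀ C : Pres → Prop, REPred C →
  (∀ k, C k → FA (PG k) ∧ ∃ x : PG k, x ≠ 1) → (Solvable (GPC C) ↔ Solvable (Prods C C))

end Pool.Agent.L0h38.GI
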